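import Pool.Agent.Helper87.SSP.PTime
import Pool.Agent.Helper89.Comp

/-!
# NP-completeness
-/

open Function Turing Computability
open Pool.Agent.Helper91.PolyTime Pool.Agent.Helper91.Reduction Pool.Agent.Helper91.Verifier
open Pool.Agent.Helper87.NP
open Pool.Agent.Helper86.XC (Cover exists_cover)

namespace Pool.Agent.Helper87.SSP

variable {g : ℕ}

/-! ### Decoding in polynomial time -/

lemma exists_letter_bound (g : ℕ) : ∃ c : ℕ, ∀ p : Fin g × Bool, (enc p).length ≤ c := by
  obtain ⟨c, hc⟩ := (Set.finite_range fun p : Fin g × Bool => (enc p).length).bddAbove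
  exact ⟨c, fun p => hc ⟨p, rfl⟩⟩

lemma length_enc_word {c : ℕ} (hc : ∀ p : Fin g × Bool, (enc p).length ≤ c) (w : Word g) :
    (enc w).length ≤ w.length * (2 * c + 1) := by
  induction w with
  | nil => simp [enc_nil]
  | cons p w ih =>
    rw [length_enc_cons, List.length_cons, add_mul, one_mul]
    have := hc p
    omega

lemma length_enc_words {c : ℕ} (hc : ∀ p : Fin g × Bool, (enc p).length ≤ c)
    (l : List (Word g)) :
    (enc l).length ≤ (2 * (2 * c + 1)) * (l.map List.length).sum + l.length := by
  induction l with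
  | nil => simp [enc_nil]
  | cons w l ih =>
    rw [length_enc_cons, List.length_cons, List.map_cons, List.sum_cons]
    have := length_enc_word hc w
    have e : 2 * (2 * c + 1) * (w.length + (l.map List.length).sum) =
      2 * (w.length * (2 * c + 1)) + 2 * (2 * c + 1) * (l.map List.length).sum := by ring
    omega

lemma length_letterOf (g n : ℕ) : (letterOf g n).length ≤ 1 := by
  by_cases h : ∃ p : Fin g × Bool, code p = n
  · obtain ⟨p, rfl⟩ := h
    rw [letterOf_code]; simp
  · have : letterOf g n = [] := by
      unfold letterOf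
      rw [List.filter_eq_nil_iff]
      intro p _ hp
      exact h ⟨p, by simpa using hp⟩
    rw [this]; simp

lemma foldl_dec1_size (t : List ℕ) : ∀ s : List (Word g) × Word g,
    (((t.foldl dec1 s).1.map List.length).sum + (t.foldl dec1 s).2.length ≤
      (s.1.map List.length).sum + s.2.length + t.length) ∧
    ((t.foldl dec1 s).1.length ≤ s.1.length + t.length) := by
  induction t with
  | nil => intro s; simp
  | cons n t ih =>
    intro s
    rw [List.foldl_cons]
    obtain ⟨h1, h2⟩ := ih (dec1 s n)
    have h3 : ((dec1 s n).1.map List.length).sum + (dec1 s n).2.length ≤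
        (s.1.map List.length).sum + s.2.length + 1 := by
      unfold dec1
      have := length_letterOf g n
      split_ifs
      · simp
      · simp only [List.length_append]; omega
    have h4 : (dec1 s n).1.length ≤ s.1.length + 1 := by
      unfold dec1
      split_ifs
      · simp
      · simp
    rw [List.length_cons]
    constructor <;> omega

section ptime

variable {α : Type*} [PEnc α]

lemma ptf_letterOf {n : α → ℕ} (hn : PTF n) : PTF (fun a => letterOf g (n a)) := by
  unfold letterOf
  exact PTF.filter (f := fun a p => decide (code p = n a)) (PTF.const (allLetters g))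
    (PTF.eq (ptf_code PTF.id.snd) (hn.comp PTF.id.fst))

lemma ptf_foldl_dec1 : PTF (fun t : List ℕ =>
    t.foldl dec1 (([], []) : List (Word g) × Word g)) := by
  obtain ⟨c, hc⟩ := exists_letter_bound g
  refine PTF.foldl (l := fun t : List ℕ => t)
    (g := fun _ => (([], []) : List (Word g) × Word g))
    (F := fun _ => dec1) PTF.id (PTF.const _) ?_
    (Polynomial.C (6 * (2 * c + 1) + 3) * Polynomial.X + 1) ?_
  · have h1 : PTF (fun p : List ℕ × (List (Word g) × Word g) × ℕ =>
        if p.2.2 = 0 then (p.2.1.1 ++ [p.2.1.2], ([] : Word g)) else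
          (p.2.1.1, p.2.1.2 ++ letterOf g p.2.2)) :=
      PTF.ite (PTF.eq PTF.id.snd.snd (PTF.const 0))
        (PTF.pair (PTF.append PTF.id.snd.fst.fst (PTF.cons PTF.id.snd.fst.snd (PTF.const [])))
          (PTF.const []))
        (PTF.pair PTF.id.snd.fst.fst (PTF.append PTF.id.snd.fst.snd
          (ptf_letterOf PTF.id.snd.snd)))
    exact h1
  · intro a t ht
    obtain ⟨h1, h2⟩ := foldl_dec1_size t (([], []) : List (Word g) × Word g)
    have h3 := ht.length_le.trans (length_le_enc a)
    rw [length_enc_prod]
    set st := t.foldl dec1 (([], []) : List (Word g) × Word g) with hst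
    have h4 := length_enc_words hc st.1
    have h5 := length_enc_word hc st.2
    simp only [List.map_nil, List.sum_nil, List.length_nil] at h1 h2
    simp only [Polynomial.eval_add, Polynomial.eval_mul, Polynomial.eval_C, Polynomial.eval_X,
      Polynomial.eval_one]
    set N := (enc a).length with hN
    have h6 : (st.1.map List.length).sum ≤ N := by omega
    have h7 : st.2.length ≤ N := by omega
    have h8 : st.1.length ≤ N := by omega
    have h9 : 2 * (2 * c + 1) * (st.1.map List.length).sum ≤ 2 * (2 * c + 1) * N :=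
      Nat.mul_le_mul_left _ h6
    have h10 : st.2.length * (2 * c + 1) ≤ N * (2 * c + 1) := Nat.mul_le_mul_right _ h7
    nlinarith

lemma ptf_decWords {x : α → List Bool} (hx : PTF x) : PTF (fun a => decWords g (x a)) := by
  unfold decWords
  exact (ptf_foldl_dec1.comp (Pool.Agent.Helper87.TotSync.ptf_blocks hx).fst).fst

end ptime

/-- A polynomial-time function of two strings gives a polynomial-time machine. -/
theorem tm2_of_ptf_pair {f : List Bool × List Bool → List Bool}
    (hf : PTF (fun a => Str.ofList (f a))) :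
    Nonempty (TM2ComputableInPolyTime
      (encodingProd (encodingList Bool) (encodingList Bool)).encode
      (id : List Bool → List Bool) f) := by
  refine PT.tm2 _ _ Pool.Agent.Helper91.Verifier.code f ?_
  have h1 : PTF (fun z : Str => Str.ofList (f ((z.toList.foldl dstep (none, [], [])).2))) :=
    hf.comp ((ptf_fold.comp (PTF.strToList PTF.id)).snd)
  have h2 := h1.reindex (fun a : List Bool × List Bool =>
    Str.ofList (((encodingProd (encodingList Bool) (encodingList Bool)).encode a).flatMap
      Pool.Agent.Helper91.Verifier.code))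
  have h3 : (fun a : List Bool × List Bool => enc (Str.ofList (f (((Str.ofList
      (((encodingProd (encodingList Bool) (encodingList Bool)).encode a).flatMap
        Pool.Agent.Helper91.Verifier.code)).toList.foldl dstep (none, [], [])).2)))) =
        fun a => id (f a) := by
    funext a
    have h4 : (Str.ofList (((encodingProd (encodingList Bool) (encodingList Bool)).encode
        a).flatMap Pool.Agent.Helper91.Verifier.code)).toList =
        ((encodingProd (encodingList Bool) (encodingList Bool)).encode a).flatMap
          Pool.Agent.Helper91.Verifier.code := rfl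
    rw [h4, foldl_code]
    have h5 : (encodingProd (encodingList Bool) (encodingList Bool)).encode a =
      a.1.map Sum.inl ++ a.2.map Sum.inr := rfl
    rw [h5, List.nil_append, List.nil_append, filterMap_left, filterMap_right]
    rfl
  rw [h3] at h2
  exact h2

/-! ### Membership in NP -/

/-- The word that the verifier asks about. -/
def ask (w₀ : Word g) (a : List Bool × List Bool) : List Bool :=
  match decWords g a.1 with
  | [] => encodeWord w₀
  | w :: l => if encodeWords (w :: l) = a.1 then encodeWord (select l a.2 ++ winv w) else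
      encodeWord w₀

lemma ptf_ask (w₀ : Word g) : PTF (ask w₀) := by
  have h := PTF.listCase (α := List Bool × List Bool) (o := fun a => decWords g a.1)
    (n := fun _ => encodeWord w₀)
    (s := fun a w l => if encodeWords (w :: l) = a.1 then encodeWord (select l a.2 ++ winv w) else
      encodeWord w₀) (ptf_decWords PTF.id.fst) (PTF.const _) (by
    refine PTF.ite (PTF.eq (ptf_encodeWords (PTF.cons PTF.id.snd.fst PTF.id.snd.snd))
      PTF.id.fst.fst) (ptf_encodeWord (PTF.append (ptf_select PTF.id.snd.snd PTF.id.fst.snd)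
        (ptf_winv PTF.id.snd.fst))) (PTF.const _))
  refine h.of_eq fun a => ?_
  unfold ask
  cases decWords g a.1 <;> rfl

lemma encodeWord_inj {v w : Word g} (h : encodeWord v = encodeWord w) : v = w := by
  have h1 := decWords_encode [v]
  have h2 := decWords_encode [w]
  simp only [encodeWords, List.flatMap_cons, List.flatMap_nil, List.append_nil] at h1 h2
  rw [h] at h1
  rw [h1] at h2
  simpa using h2

variable {G : Type*} [Group G]

lemma mem_WP_iff {s : Fin g → G} {w : Word g} : encodeWord w ∈ WP s ↔ ev s w = 1 := by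
  constructor
  · rintro ⟨w', h1, h2⟩
    rw [encodeWord_inj h1]; exact h2
  · intro h
    exact ⟨w, rfl, h⟩

/-- The subset sum problem is in NP if the word problem is in P. -/
theorem ssp_inNP {s : Fin g → G} (hs : InP (WP s)) {w₀ : Word g} (h₀ : ev s w₀ ≠ 1) :
    InNP (SSP s) := by
  obtain ⟨R, hR, hRs⟩ := hs
  obtain ⟨M1⟩ := tm2_of_ptf_pair (f := ask w₀) (PTF.strOfList (ptf_ask w₀))
  obtain ⟨M2⟩ := hR
  refine ⟨Polynomial.X, R ∘ ask w₀, Pool.Agent.Helper89.TM2Poly.comp M1 M2, fun x => ?_⟩
  have key : ∀ y, (R ∘ ask w₀) (x, y) = true ↔ ask w₀ (x, y) ∈ WP s := fun y => (hRs _).symm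
  simp only [key]
  rcases hd : decWords g x with _ | ⟨w, l⟩
  · have h1 : ∀ y, ask w₀ (x, y) = encodeWord w₀ := by
      intro y; unfold ask; rw [hd]
    simp only [h1, mem_WP_iff, h₀, and_false, exists_false, iff_false]
    rintro ⟨w, l, rfl, -⟩
    rw [← encodeWords_cons, decWords_encode] at hd
    simp at hd
  · by_cases hx : encodeWords (w :: l) = x
    · have h1 : ∀ y, ask w₀ (x, y) = encodeWord (select l y ++ winv w) := by
        intro y; unfold ask; rw [hd]; simp only; rw [if_pos hx]
      simp only [h1, mem_WP_iff, ev_append, ev_winv, mul_inv_eq_one]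
      constructor
      · rintro ⟨w', l', h2, l'', h3, h4⟩
        rw [← encodeWords_cons] at h2
        rw [h2, decWords_encode] at hd
        obtain ⟨rfl, rfl⟩ : w' = w ∧ l' = l := by simpa using hd
        obtain ⟨y, h5, h6⟩ := exists_select h3
        refine ⟨y, ?_, by rw [h6, ev_flatten, h4]⟩
        rw [Polynomial.eval_X, h2, encodeWords_cons, List.length_append]
        have h7 : ∀ l : List (Word g), l.length ≤ (l.flatMap encodeWord).length := by
          intro l
          induction l with
          | nil => simp
          | cons v l ih =>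
            rw [List.flatMap_cons, List.length_append, List.length_cons]
            have : 1 ≤ (encodeWord v).length := by
              unfold encodeWord unary
              simp
            omega
        have := h7 l'
        omega
      · rintro ⟨y, -, h2⟩
        obtain ⟨l', h3, h4⟩ := select_sublist l y
        exact ⟨w, l, by rw [← encodeWords_cons, hx], l', h3, by rw [← ev_flatten, ← h4, h2]⟩
    · have h1 : ∀ y, ask w₀ (x, y) = encodeWord w₀ := by
        intro y; unfold ask; rw [hd]; simp only; rw [if_neg hx]
      simp only [h1, mem_WP_iff, h₀, and_false, exists_false, iff_false]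
      rintro ⟨w', l', h2, -⟩
      rw [← encodeWords_cons] at h2
      apply hx
      rw [h2, decWords_encode] at hd
      rw [← hd, ← h2]

/-! ### NP-hardness -/

/-- The incidence matrix. -/
def inc {E : Type*} [DecidableEq E] (S : List (List E)) (U : List E) (j i : ℕ) : Bool :=
  match S[j]?, U[i]? with
  | some s, some u => decide (u ∈ s)
  | _, _ => false

lemma inc_eq_true {E : Type*} [DecidableEq E] {S : List (List E)} {U : List E} {j i : ℕ} :
    inc S U j i = true ↔ ∃ (hj : j < S.length) (hi : i < U.length), U[i] ∈ S[j] := by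
  unfold inc
  by_cases hj : j < S.length
  · by_cases hi : i < U.length
    · simp [List.getElem?_eq_getElem hj, List.getElem?_eq_getElem hi, hj, hi]
    · rw [List.getElem?_eq_getElem hj, List.getElem?_eq_none (by omega)]
      simp [hi]
  · rw [List.getElem?_eq_none (l := S) (by omega)]
    simp [hj]

lemma cover_iff_inc {E : Type*} [DecidableEq E] (S : List (List E)) (U : List E) :
    Cover S U ↔ ∃ c : ℕ → Prop, ∀ i < U.length, ∃ r < S.length, c r ∧ inc S U r i = true ∧
      ∀ r' < S.length, c r' → inc S U r' i = true → r' = r := by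
  classical
  constructor
  · rintro ⟨c, hc⟩
    refine ⟨fun r => c r = true, fun i hi => ?_⟩
    obtain ⟨r, ⟨hr, h1, h2⟩, h3⟩ := hc _ (List.getElem_mem hi)
    refine ⟨r, hr, h1, inc_eq_true.2 ⟨hr, hi, h2⟩, ?_⟩
    intro r' hr' hc' hA
    obtain ⟨h4, h5, h6⟩ := inc_eq_true.1 hA
    exact h3 r' ⟨h4, hc', h6⟩
  · rintro ⟨c, hc⟩
    refine ⟨fun r => decide (c r), fun e he => ?_⟩
    obtain ⟨i, hi, rfl⟩ := List.mem_iff_getElem.1 he
    obtain ⟨r, hr, h1, h2, h3⟩ := hc i hi
    obtain ⟨h4, h5, h6⟩ := inc_eq_true.1 h2
    refine ⟨r, ⟨hr, by simpa using h1, h6⟩, ?_⟩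
    rintro r' ⟨hr', hc', he'⟩
    exact h3 r' hr' (by simpa using hc') (inc_eq_true.2 ⟨hr', hi, he'⟩)

lemma ptf_inc {α E : Type*} [PEnc α] [PEnc E] [DecidableEq E] {S : α → List (List E)}
    {U : α → List E} {j i : α → ℕ} (hS : PTF S) (hU : PTF U) (hj : PTF j) (hi : PTF i) :
    PTF (fun a => inc (S a) (U a) (j a) (i a)) := by
  have h1 := PTF.optCase (α := α) (o := fun a => (S a)[j a]?) (n := fun _ => false)
    (s := fun a s => match (U a)[i a]? with
      | some u => decide (u ∈ s)
      | none => false) (PTF.getElem? hj hS) (PTF.const false) (by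
    have h2 := PTF.optCase (α := α × List E) (o := fun p => (U p.1)[i p.1]?)
      (n := fun _ => false) (s := fun p u => p.2.any fun v => decide (v = u))
      (PTF.getElem? (hi.comp PTF.id.fst) (hU.comp PTF.id.fst)) (PTF.const false)
      (PTF.any PTF.id.fst.snd (PTF.eq PTF.id.snd PTF.id.fst.snd))
    refine h2.of_eq fun p => ?_
    cases (U p.1)[i p.1]? with
    | none => rfl
    | some u =>
      simp only
      rw [Bool.eq_iff_iff]
      simp)
  refine h1.of_eq fun a => ?_
  unfold inc
  cases (S a)[j a]? with
  | none => rfl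
  | some s => cases (U a)[i a]? <;> rfl

/-- **NP-hardness.** -/
theorem ssp_hard {s : Fin g → G} {H : Subgroup G} {t a : H} (ha : a ∈ commutator H)
    (hd : Diss t a ha) {τ β : Word g} (hτ : ev s τ = t) (hβ : ev s β = a) {C : ℕ}
    (hC : (commutator H).lowerCentralSeries (C + 1) = ⊥) (L : Set (List Bool)) (hL : InNP L) :
    Reduces L (SSP s) := by
  obtain ⟨p, R, hR, hRL⟩ := hL
  obtain ⟨E, hE, hdec, S, U, hS, hU, hcov⟩ := exists_cover p R hR
  refine ⟨fun x => encodeWords (wTarget τ (U x).length ::
    wList C τ β (S x).length (U x).length (inc (S x) (U x))), ?_, fun x => ?_⟩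
  · refine tm2_of_ptf_str ?_
    have hS' : PTF (fun x : Str => S x.toList) := hS.comp (PTF.strToList PTF.id)
    have hU' : PTF (fun x : Str => U x.toList) := hU.comp (PTF.strToList PTF.id)
    refine PTF.strOfList (ptf_encodeWords (PTF.cons (ptf_wTarget τ (PTF.length hU'))
      (ptf_wList C τ β (PTF.length hS') (PTF.length hU') ?_)))
    exact ptf_inc (hS'.comp PTF.id.fst.fst) (hU'.comp PTF.id.fst.fst) PTF.id.fst.snd PTF.id.snd
  · rw [hRL, hcov, cover_iff_inc, ← gadget_iff s ha hd hτ hβ hC]
    constructor
    · rintro ⟨l, h1, h2⟩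
      exact ⟨_, _, rfl, l, h1, h2⟩
    · rintro ⟨w, l, h1, l', h2, h3⟩
      rw [← encodeWords_cons] at h1
      simp only at h1
      have h4 := decWords_encode (wTarget τ (U x).length ::
        wList C τ β (S x).length (U x).length (inc (S x) (U x)))
      rw [h1, decWords_encode] at h4
      obtain ⟨rfl, rfl⟩ : w = _ ∧ l = _ := by simpa using h4
      exact ⟨l', h2, h3⟩

/-! ### The theorem -/

lemma exists_word {s : Fin g → G} (hs : Subgroup.closure (Set.range s) = ⊤) (x : G) :
    ∃ w : Word g, ev s w = x := by
  have hx : x ∈ Subgroup.closure (Set.range s) := hs ▸ Subgroup.mem_top x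
  induction hx using Subgroup.closure_induction with
  | mem x hx =>
    obtain ⟨i, rfl⟩ := hx
    exact ⟨[(i, true)], by simp [ev]⟩
  | one => exact ⟨[], rfl⟩
  | mul x y _ _ ihx ihy =>
    obtain ⟨u, rfl⟩ := ihx
    obtain ⟨v, rfl⟩ := ihy
    exact ⟨u ++ v, ev_append s u v⟩
  | inv x _ ih =>
    obtain ⟨u, rfl⟩ := ih
    exact ⟨winv u, ev_winv s u⟩

lemma virtNilp_of_nilpotent {Γ : Type*} [Group Γ] (h : Group.IsNilpotent Γ) : VirtNilp Γ :=
  ⟨⊤, inferInstance, inferInstance⟩

/-- **Main theorem.** -/
theorem main {g : ℕ} (s : Fin g → G) (hs : Subgroup.closure (Set.range s) = ⊤)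
    (hWP : InP (WP s)) (H : Subgroup G) (hfg : H.FG) (hnil : Group.IsNilpotent (commutator H))
    (hH : ¬ VirtNilp H) : IsNPComplete (SSP s) := by
  have hfg' : Group.FG H := (Group.fg_iff_subgroup_fg H).2 hfg
  have hbad : ¬ Good H := fun h => hH (h.virtNilp hnil)
  obtain ⟨t, a, ha, hd⟩ := not_good_iff.1 hbad
  obtain ⟨τ, hτ⟩ := exists_word hs (t : G)
  obtain ⟨β, hβ⟩ := exists_word hs (a : G)
  obtain ⟨C, hC⟩ := (Subgroup.isNilpotent_iff_lowerCentralSeries (commutator H)).1 hnil
  have hC' : (commutator H).lowerCentralSeries (C + 1) = ⊥ := by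
    rw [← le_bot_iff, ← hC]
    exact Subgroup.lowerCentralSeries_antitone _ (Nat.le_succ C)
  refine ⟨ssp_inNP hWP (w₀ := β) ?_, fun L hL => ssp_hard ha hd hτ hβ hC' L hL⟩
  rw [hβ]
  intro h1
  have h2 : a = 1 := Subtype.ext h1
  subst h2
  refine hd 1 ⟨one_ne_zero, fun i => ?_⟩ ?_
  · rw [Polynomial.coeff_one]
    split_ifs <;> simp
  · have : cl (1 : H) ha = 0 := rfl
    rw [this, map_zero]

end Pool.Agent.Helper87.SSP
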