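import Pool.Agent.Helper87.NP.Defs

/-!
# The subset sum problem and the word problem of a finitely generated group
-/

open Turing Computability

namespace Pool.Agent.Helper87.SSP

/-- Words over `g` generators and their inverses: `(i, true)` stands for the `i`-th generator and
`(i, false)` for its inverse. -/
abbrev Word (g : ℕ) : Type := List (Fin g × Bool)

variable {G : Type*} [Group G] {g : ℕ}

/-- The element of the group that a word represents. -/
def ev (s : Fin g → G) (w : Word g) : G :=
  (w.map fun p => if p.2 = true then s p.1 else (s p.1)⁻¹).prod

/-- A number in unary, ended by `false`. -/
def unary (m : ℕ) : List Bool := List.replicate m true ++ [false]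

/-- The positive number of a letter. -/
def code (p : Fin g × Bool) : ℕ := 2 * p.1.val + if p.2 = true then 1 else 2

/-- The encoding of a word: the numbers of its letters, then `0`, all in unary. -/
def encodeWord (w : Word g) : List Bool := (w.flatMap fun p => unary (code p)) ++ unary 0

/-- The word problem of a group with generators `s`: the encodings of the words that represent
the identity. -/
def WP (s : Fin g → G) : Set (List Bool) := {x | ∃ w : Word g, x = encodeWord w ∧ ev s w = 1}

/-- The subset sum problem of a group with generators `s`: the encodings of a target word `w` and
a list `l` of words such that the product of some sublist of `l` is `w` in the group. -/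
def SSP (s : Fin g → G) : Set (List Bool) :=
  {x | ∃ (w : Word g) (l : List (Word g)), x = encodeWord w ++ l.flatMap encodeWord ∧
    ∃ l' : List (Word g), l'.Sublist l ∧ (l'.map (ev s)).prod = ev s w}

/-- The class P. -/
def InP (L : Set (List Bool)) : Prop :=
  ∃ R : List Bool → Bool,
    Nonempty (TM2ComputableInPolyTime (id : List Bool → List Bool) encodeBool R) ∧
    ∀ x, x ∈ L ↔ R x = true

/-- The group has a nilpotent subgroup of finite index. -/
def VirtNilp (Γ : Type*) [Group Γ] : Prop :=
  ∃ H : Subgroup Γ, H.FiniteIndex ∧ Group.IsNilpotent H

end Pool.Agent.Helper87.SSP
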