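import Mathlib

/-!
# Units of module-finite rings with flat relations
-/

namespace Pool.Agent.Helper87.SSP

open Polynomial

/-- A non-zero integer polynomial all whose coefficients are `-1`, `0` or `1`. -/
def Flat (P : ℤ[X]) : Prop := P ≠ 0 ∧ ∀ i, |P.coeff i| ≤ 1

lemma Flat.norm_lt_two {P : ℤ[X]} (hP : Flat P) {z : ℂ} (h : aeval z P = 0) : ‖z‖ < 2 := by
  set p := P.map (Int.castRingHom ℂ) with hp
  have hp0 : p ≠ 0 := (Polynomial.map_ne_zero_iff (RingHom.injective_int _)).2 hP.1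
  have hroot : p.IsRoot z := by
    rw [IsRoot.def, hp, eval_map]
    exact h
  have h1 := hroot.norm_lt_cauchyBound hp0
  have hc : ∀ i, ‖p.coeff i‖₊ ≤ 1 := by
    intro i
    rw [← NNReal.coe_le_coe]
    simp only [hp, coeff_map, coe_nnnorm, NNReal.coe_one, eq_intCast]
    rw [Complex.norm_intCast]
    exact_mod_cast hP.2 i
  have hl : 1 ≤ ‖p.leadingCoeff‖₊ := by
    rw [← NNReal.coe_le_coe]
    have e : p.leadingCoeff = ((P.leadingCoeff : ℤ) : ℂ) := by
      rw [hp, leadingCoeff_map_of_injective (RingHom.injective_int _)]; rfl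
    rw [coe_nnnorm, NNReal.coe_one, e, Complex.norm_intCast]
    have : P.leadingCoeff ≠ 0 := leadingCoeff_ne_zero.2 hP.1
    exact_mod_cast Int.one_le_abs this
  have h2 : p.cauchyBound ≤ 2 := by
    unfold cauchyBound
    have h3 : (Finset.range p.natDegree).sup (‖p.coeff ·‖₊) / ‖p.leadingCoeff‖₊ ≤ 1 := by
      rw [div_le_one₀ (by positivity)]
      exact (Finset.sup_le fun i _ => hc i).trans hl
    calc _ ≤ (1 : NNReal) + 1 := by gcongr
      _ = 2 := by norm_num
  have h3 := h1.trans_le h2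
  exact_mod_cast h3

lemma norm_le_one_of_flat {z : ℂ} (h : ∀ s : ℕ, 1 ≤ s → ∃ P, Flat P ∧ aeval (z ^ s) P = 0) :
    ‖z‖ ≤ 1 := by
  by_contra hz
  push Not at hz
  obtain ⟨s, hs⟩ := pow_unbounded_of_one_lt 2 hz
  have hs1 : 1 ≤ s := by
    rcases s with _ | s
    · simp at hs
    · omega
  obtain ⟨P, hP, h0⟩ := h s hs1
  have := hP.norm_lt_two h0
  rw [norm_pow] at this
  linarith

/-- Kronecker's theorem in a field of characteristic zero. -/
lemma pow_eq_one_of_flat_field {K : Type*} [Field K] [CharZero K] {v : K} (hv0 : v ≠ 0)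
    (hv : IsIntegral ℤ v) (h : ∀ s : ℕ, 1 ≤ s → ∃ P, Flat P ∧ aeval (v ^ s) P = 0) :
    ∃ M : ℕ, 0 < M ∧ v ^ M = 1 := by
  have hvQ : IsIntegral ℚ v := hv.tower_top
  let F := IntermediateField.adjoin ℚ {v}
  have : FiniteDimensional ℚ F := IntermediateField.adjoin.finiteDimensional hvQ
  have : NumberField F := ⟨⟩
  let x : F := ⟨v, IntermediateField.mem_adjoin_simple_self ℚ v⟩
  have hx0 : x ≠ 0 := fun h => hv0 (congrArg Subtype.val h)
  have hxi : IsIntegral ℤ x := by
    rw [← isIntegral_algebraMap_iff (B := K) (algebraMap F K).injective]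
    exact hv
  obtain ⟨n, hn, hxn⟩ := NumberField.Embeddings.pow_eq_one_of_norm_le_one F ℂ hx0 hxi (by
    intro φ
    refine norm_le_one_of_flat fun s hs => ?_
    obtain ⟨P, hP, h0⟩ := h s hs
    refine ⟨P, hP, ?_⟩
    have h1 : aeval (x ^ s) P = 0 := by
      apply (algebraMap F K).injective
      rw [map_zero, ← h0]
      have := (Polynomial.aeval_algebraMap_apply K (x ^ s) P).symm
      rw [this]
      simp [x]
    have h2 := congrArg φ h1
    rw [map_zero] at h2
    rw [← h2, ← map_pow, aeval_def, aeval_def, hom_eval₂]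
    congr 1
    exact Subsingleton.elim _ _)
  refine ⟨n, hn, ?_⟩
  have := congrArg (algebraMap F K) hxn
  simpa [x] using this

lemma pow_eq_one_of_flat_frac {S K : Type*} [CommRing S] [IsDomain S] [CharZero S] [Field K]
    [Algebra S K] [IsFractionRing S K] {v : S}
    (hv0 : v ≠ 0) (hint : IsIntegral ℤ v)
    (h : ∀ s : ℕ, 1 ≤ s → ∃ P, Flat P ∧ aeval (v ^ s) P = 0) :
    ∃ M : ℕ, 0 < M ∧ v ^ M = 1 := by
  have : CharZero K := charZero_of_injective_algebraMap (IsFractionRing.injective S K)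
  obtain ⟨M, hM, hvM⟩ := pow_eq_one_of_flat_field (K := K) (v := algebraMap S K v)
    (by
      intro h0
      exact hv0 (IsFractionRing.injective S K (by rw [h0, map_zero])))
    (hint.map (algebraMap S K).toIntAlgHom) (by
      intro s hs
      obtain ⟨P, hP, h0⟩ := h s hs
      refine ⟨P, hP, ?_⟩
      have := congrArg (algebraMap S K) h0
      rw [map_zero] at this
      rw [← map_pow, ← this, aeval_def, aeval_def, hom_eval₂]
      congr 1
      exact Subsingleton.elim _ _)
  refine ⟨M, hM, IsFractionRing.injective S K ?_⟩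
  rw [map_pow, hvM, map_one]

/-- The same in a domain that is a finite module over the integers. -/
lemma pow_eq_one_of_flat_domain {S : Type*} [CommRing S] [IsDomain S] [Module.Finite ℤ S] {v : S}
    (hv0 : v ≠ 0) (h : ∀ s : ℕ, 1 ≤ s → ∃ P, Flat P ∧ aeval (v ^ s) P = 0) :
    ∃ M : ℕ, 0 < M ∧ v ^ M = 1 := by
  have hint : IsIntegral ℤ v := IsIntegral.of_finite ℤ v
  obtain ⟨p, hp⟩ := CharP.exists S
  rcases Nat.eq_zero_or_pos p with rfl | hp0
  · have : CharZero S := CharP.charP_to_charZero S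
    exact pow_eq_one_of_flat_frac (K := FractionRing S) hv0 hint h
  · have : Finite S := by
      refine Module.finite_of_fg_torsion S fun x => ?_
      refine ⟨⟨(p : ℤ), ?_⟩, ?_⟩
      · exact mem_nonZeroDivisors_of_ne_zero (by exact_mod_cast hp0.ne')
      · show (p : ℤ) • x = 0
        rw [zsmul_eq_mul]
        simp
    let : Field S := (Finite.isDomain_to_isField S).toField
    obtain ⟨M, hM, hvM⟩ := (isOfFinOrder_of_finite (Units.mk0 v hv0)).exists_pow_eq_one
    refine ⟨M, hM, ?_⟩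
    have := congrArg Units.val hvM
    simpa using this

/-- Units with flat relations are unipotent up to a power. -/
theorem exists_pow_sub_one_nilpotent {R : Type*} [CommRing R] [Module.Finite ℤ R] (u : Rˣ)
    (h : ∀ s : ℕ, 1 ≤ s → ∃ l : List ℤ[X], (∀ P ∈ l, Flat P) ∧ aeval ((u : R) ^ s) l.prod = 0) :
    ∃ M : ℕ, 0 < M ∧ IsNilpotent ((u : R) ^ M - 1) := by
  classical
  have : IsNoetherian ℤ R := isNoetherian_of_isNoetherianRing_of_finite ℤ R
  have : IsNoetherianRing R := isNoetherian_of_tower ℤ this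
  have key : ∀ 𝔭 ∈ minimalPrimes R, ∃ M : ℕ, 0 < M ∧ (u : R) ^ M - 1 ∈ 𝔭 := by
    intro 𝔭 hp
    have := hp.1.1
    obtain ⟨M, hM, hv⟩ := pow_eq_one_of_flat_domain (S := R ⧸ 𝔭) (v := Ideal.Quotient.mk 𝔭 u)
      (by
        rw [Ne, Ideal.Quotient.eq_zero_iff_mem]
        intro hmem
        exact hp.1.1.ne_top (Ideal.eq_top_of_isUnit_mem _ hmem u.isUnit))
      (by
        intro s hs
        obtain ⟨l, hl, h0⟩ := h s hs
        have h1 : aeval ((Ideal.Quotient.mk 𝔭 (u : R)) ^ s) l.prod = 0 := by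
          rw [← map_pow]
          have := congrArg (Ideal.Quotient.mk 𝔭) h0
          rw [map_zero] at this
          rw [← this, aeval_def, aeval_def, hom_eval₂]
          congr 1
        rw [map_list_prod] at h1
        have h2 := List.prod_eq_zero_iff.1 h1
        rw [List.mem_map] at h2
        obtain ⟨P, hP, h3⟩ := h2
        exact ⟨P, hl P hP, h3⟩)
    refine ⟨M, hM, ?_⟩
    rw [← Ideal.Quotient.eq_zero_iff_mem, map_sub, map_pow, hv, map_one, sub_self]
  have hfin : (minimalPrimes R).Finite := minimalPrimes.finite_of_isNoetherianRing R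
  choose! f hf1 hf2 using key
  refine ⟨∏ 𝔭 ∈ hfin.toFinset, f 𝔭, Finset.prod_pos fun 𝔭 h𝔭 => hf1 𝔭 (by simpa using h𝔭), ?_⟩
  rw [← mem_nilradical, nilradical, ← Ideal.sInf_minimalPrimes, Ideal.mem_sInf]
  intro 𝔭 h𝔭
  have h𝔭' : 𝔭 ∈ minimalPrimes R := h𝔭
  obtain ⟨k, hk⟩ := Finset.dvd_prod_of_mem f (by simpa using h𝔭' : 𝔭 ∈ hfin.toFinset)
  rw [hk, pow_mul]
  have : (u : R) ^ f 𝔭 - 1 ∣ ((u : R) ^ f 𝔭) ^ k - 1 := by
    simpa using sub_dvd_pow_sub_pow ((u : R) ^ f 𝔭) 1 k
  exact Ideal.mem_of_dvd _ this (hf2 𝔭 h𝔭')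

end Pool.Agent.Helper87.SSP

namespace Pool.Agent.Helper87.SSP

open Polynomial

lemma Flat.leadingCoeff {P : ℤ[X]} (hP : Flat P) : P.leadingCoeff = 1 ∨ P.leadingCoeff = -1 := by
  have h1 : P.leadingCoeff ≠ 0 := leadingCoeff_ne_zero.2 hP.1
  have h2 : |P.leadingCoeff| ≤ 1 := hP.2 _
  rw [abs_le] at h2
  omega

lemma isIntegral_of_flat {R : Type*} [CommRing R] {v : R} {l : List ℤ[X]} (hl : ∀ P ∈ l, Flat P)
    (h : aeval v l.prod = 0) : IsIntegral ℤ v := by
  have h1 : ∀ l : List ℤ[X], (∀ P ∈ l, Flat P) → l.prod.Monic ∨ (-l.prod).Monic := by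
    intro l
    induction l with
    | nil => intro _; left; simp
    | cons P l ih =>
      intro hl
      have hl' := ih fun Q hQ => hl Q (List.mem_cons_of_mem _ hQ)
      have hP : P.Monic ∨ (-P).Monic := by
        rcases (hl P List.mem_cons_self).leadingCoeff with h | h
        · exact Or.inl h
        · right
          rw [Monic, leadingCoeff_neg, h]; rfl
      rw [List.prod_cons]
      rcases hP with hP | hP <;> rcases hl' with hl' | hl'
      · exact Or.inl (hP.mul hl')
      · right; have := hP.mul hl'; rwa [mul_neg] at this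
      · right; have := hP.mul hl'; rwa [neg_mul] at this
      · left; have := hP.mul hl'; rwa [neg_mul_neg] at this
  rcases h1 l hl with h2 | h2
  · exact ⟨_, h2, h⟩
  · refine ⟨_, h2, ?_⟩
    have : aeval v (-l.prod) = 0 := by rw [map_neg, h, neg_zero]
    exact this

end Pool.Agent.Helper87.SSP
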