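import Pool.Agent.Helper87.SSP.Hall
import Pool.Agent.Helper87.SSP.Ring
import Pool.Agent.Helper87.SSP.Defs

/-!
# Pairs with dissociated orbits
-/

namespace Pool.Agent.Helper87.SSP

open Polynomial Subgroup

variable {Γ : Type*} [Group Γ]

/-- The abelianization of the commutator subgroup, written additively. -/
abbrev Ab (Γ : Type*) [Group Γ] : Type _ := Additive (Abelianization (commutator Γ))

/-- The class of an element of the commutator subgroup. -/
def cl (x : Γ) (hx : x ∈ commutator Γ) : Ab Γ := Additive.ofMul (Abelianization.of ⟨x, hx⟩)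

/-- The action by conjugation. -/
def act : Γ →* AddMonoid.End (Ab Γ) where
  toFun g := MonoidHom.toAdditive (Abelianization.map
    (MulAut.conjNormal (H := commutator Γ) g).toMonoidHom)
  map_one' := by
    ext x
    induction x using Additive.rec with
    | ofMul x =>
      induction x using QuotientGroup.induction_on with
      | H x =>
        show Additive.ofMul (Abelianization.of (MulAut.conjNormal (1 : Γ) x)) = _
        rw [map_one]; rfl
  map_mul' g h := by
    ext x
    induction x using Additive.rec with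
    | ofMul x =>
      induction x using QuotientGroup.induction_on with
      | H x =>
        show Additive.ofMul (Abelianization.of (MulAut.conjNormal (g * h : Γ) x)) = _
        rw [map_mul]; rfl

lemma conj_mem {g x : Γ} (hx : x ∈ commutator Γ) : g * x * g⁻¹ ∈ commutator Γ :=
  Subgroup.Normal.conj_mem inferInstance x hx g

lemma act_cl (g x : Γ) (hx : x ∈ commutator Γ) :
    act g (cl x hx) = cl (g * x * g⁻¹) (conj_mem hx) := by
  show Additive.ofMul (Abelianization.of (MulAut.conjNormal g ⟨x, hx⟩)) = _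
  rfl

lemma cl_mul {x y : Γ} (hx : x ∈ commutator Γ) (hy : y ∈ commutator Γ) :
    cl (x * y) (mul_mem hx hy) = cl x hx + cl y hy := rfl

lemma cl_one : cl (1 : Γ) (one_mem _) = 0 := rfl

lemma cl_inv {x : Γ} (hx : x ∈ commutator Γ) : cl x⁻¹ (inv_mem hx) = -cl x hx := rfl

lemma cl_congr {x y : Γ} (h : x = y) (hx : x ∈ commutator Γ) : cl x hx = cl y (h ▸ hx) := by
  subst h; rfl

lemma exists_cl (a : Ab Γ) : ∃ (x : Γ) (hx : x ∈ commutator Γ), cl x hx = a := by
  induction a using Additive.rec with
  | ofMul a =>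
    induction a using QuotientGroup.induction_on with
    | H x => exact ⟨x, x.2, rfl⟩

lemma cl_eq_zero_iff {x : Γ} (hx : x ∈ commutator Γ) :
    cl x hx = 0 ↔ x ∈ ⁅commutator Γ, commutator Γ⁆ := by
  have h1 : cl x hx = 0 ↔ (Abelianization.of (⟨x, hx⟩ : commutator Γ)) = 1 := Iff.rfl
  rw [h1, ← MonoidHom.mem_ker, Abelianization.ker_of, ← Subgroup.map_subtype_commutator]
  simp [Subgroup.mem_map, hx]

lemma act_of_mem {x : Γ} (hx : x ∈ commutator Γ) : act x = 1 := by
  refine AddMonoidHom.ext fun a => ?_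
  obtain ⟨y, hy, rfl⟩ := exists_cl a
  show act x (cl y hy) = cl y hy
  rw [act_cl, ← sub_eq_zero, sub_eq_add_neg, ← cl_inv, ← cl_mul, cl_eq_zero_iff]
  exact commutator_mem_commutator hx hy

lemma act_comm (g h : Γ) : act g * act h = act h * act g := by
  have h1 : act (g * h * g⁻¹ * h⁻¹) = 1 :=
    act_of_mem (commutator_mem_commutator (mem_top g) (mem_top h))
  have h2 : g * h = (g * h * g⁻¹ * h⁻¹) * (h * g) := by group
  rw [← map_mul, h2, map_mul, h1, one_mul, map_mul]

/-- The commutator subgroup of a finitely generated group is the normal closure of a finite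
set. -/
lemma exists_normal_gens [hfg : Group.FG Γ] :
    ∃ F : Finset Γ, normalClosure (F : Set Γ) = commutator Γ := by
  classical
  obtain ⟨S, hS⟩ := hfg.out
  let F : Finset Γ := Finset.image₂ (fun x y => x * y * x⁻¹ * y⁻¹) S S
  have hF : ∀ x ∈ S, ∀ y ∈ S, x * y * x⁻¹ * y⁻¹ ∈ F := fun x hx y hy =>
    Finset.mem_image₂_of_mem hx hy
  refine ⟨F, le_antisymm ?_ ?_⟩
  · refine normalClosure_le_normal ?_
    intro z hz
    obtain ⟨x, -, y, -, rfl⟩ := Finset.mem_image₂.1 hz
    exact commutator_mem_commutator (mem_top x) (mem_top y)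
  · set K := normalClosure (F : Set Γ) with hK
    let π := QuotientGroup.mk' K
    have key : ∀ x y : Γ, Commute (π x) (π y) ↔ x * y * x⁻¹ * y⁻¹ ∈ K := by
      intro x y
      have h1 : x * y * x⁻¹ * y⁻¹ ∈ K ↔ π (x * y * x⁻¹ * y⁻¹) = 1 := by
        rw [← MonoidHom.mem_ker, QuotientGroup.ker_mk']
      rw [h1]
      simp only [map_mul, map_inv]
      rw [mul_inv_eq_one, mul_inv_eq_iff_eq_mul]
      rfl
    have h1 : ∀ x ∈ S, ∀ y : Γ, Commute (π x) (π y) := by
      intro x hx y
      have hy : y ∈ closure (S : Set Γ) := hS ▸ mem_top y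
      induction hy using closure_induction with
      | mem y hy => exact (key x y).2 (subset_normalClosure (hF x hx y hy))
      | one => rw [map_one]; exact Commute.one_right _
      | mul a b _ _ ha hb => rw [map_mul]; exact ha.mul_right hb
      | inv a _ ha => rw [map_inv]; exact ha.inv_right
    have h2 : ∀ x y : Γ, Commute (π x) (π y) := by
      intro x y
      have hx : x ∈ closure (S : Set Γ) := hS ▸ mem_top x
      induction hx using closure_induction with
      | mem x hx => exact h1 x hx y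
      | one => rw [map_one]; exact Commute.one_left _
      | mul a b _ _ ha hb => rw [map_mul]; exact ha.mul_left hb
      | inv a _ ha => rw [map_inv]; exact ha.inv_left
    rw [_root_.commutator_def, commutator_le]
    intro x _ y _
    exact (key x y).1 (h2 x y)

/-! ### The ring of the action -/

/-- The action of the abelianization. -/
def actAb : Abelianization Γ →* AddMonoid.End (Ab Γ) :=
  QuotientGroup.lift (_root_.commutator Γ) act fun _ hx => act_of_mem hx

/-- The action of the group ring of the abelianization. -/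
noncomputable def Phi (Γ : Type*) [Group Γ] :
    MonoidAlgebra ℤ (Abelianization Γ) →ₐ[ℤ] AddMonoid.End (Ab Γ) :=
  MonoidAlgebra.lift ℤ _ _ actAb

/-- The commutative ring generated by the action. -/
def RR (Γ : Type*) [Group Γ] : Type _ :=
  MonoidAlgebra ℤ (Abelianization Γ) ⧸ RingHom.ker (Phi Γ)

noncomputable instance : CommRing (RR Γ) :=
  inferInstanceAs (CommRing (MonoidAlgebra ℤ (Abelianization Γ) ⧸ RingHom.ker (Phi Γ)))

/-- The projection. -/
noncomputable def toRR (Γ : Type*) [Group Γ] : MonoidAlgebra ℤ (Abelianization Γ) →+* RR Γ :=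
  Ideal.Quotient.mk _

lemma toRR_surj : Function.Surjective (toRR Γ) := Ideal.Quotient.mk_surjective

/-- The ring acts. -/
noncomputable def Psi (Γ : Type*) [Group Γ] : RR Γ →+* AddMonoid.End (Ab Γ) :=
  Ideal.Quotient.lift (RingHom.ker (Phi Γ)) (Phi Γ).toRingHom fun _ h => h

lemma Psi_toRR (f : MonoidAlgebra ℤ (Abelianization Γ)) : Psi Γ (toRR Γ f) = Phi Γ f := rfl

lemma Psi_inj {r : RR Γ} (h : Psi Γ r = 0) : r = 0 := by
  obtain ⟨f, rfl⟩ := toRR_surj r
  rw [Psi_toRR] at h
  exact Ideal.Quotient.eq_zero_iff_mem.2 h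

/-- The elements of the group in the ring. -/
noncomputable def uu : Γ →* RR Γ :=
  (toRR Γ).toMonoidHom.comp ((MonoidAlgebra.of ℤ _).comp Abelianization.of)

lemma Psi_uu (g : Γ) : Psi Γ (uu g) = act g := by
  show Phi Γ (MonoidAlgebra.of ℤ _ (Abelianization.of g)) = act g
  rw [Phi, MonoidAlgebra.lift_of]
  rfl

lemma uu_of_mem {x : Γ} (hx : x ∈ _root_.commutator Γ) : uu x = 1 := by
  show toRR Γ (MonoidAlgebra.of ℤ _ (Abelianization.of x)) = 1
  have : Abelianization.of x = 1 := by
    rw [← MonoidHom.mem_ker, Abelianization.ker_of]; exact hx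
  rw [this, map_one, map_one]

lemma Psi_act_comm (r : RR Γ) (g : Γ) (a : Ab Γ) : Psi Γ r (act g a) = act g (Psi Γ r a) := by
  have h : Psi Γ r * act g = act g * Psi Γ r := by
    rw [← Psi_uu, ← map_mul, ← map_mul, mul_comm]
  exact DFunLike.congr_fun h a

/-- An element of the ring that kills normal generators vanishes. -/
lemma eq_zero_of_gens {F : Set Γ} (hF : normalClosure F = _root_.commutator Γ) {r : RR Γ}
    (h : ∀ a ∈ F, ∀ ha : a ∈ _root_.commutator Γ, Psi Γ r (cl a ha) = 0) : r = 0 := by
  apply Psi_inj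
  let D : Subgroup Γ :=
    { carrier := {x | ∃ hx : x ∈ _root_.commutator Γ, Psi Γ r (cl x hx) = 0}
      one_mem' := ⟨one_mem _, by rw [cl_one, map_zero]⟩
      mul_mem' := by
        rintro x y ⟨hx, h1⟩ ⟨hy, h2⟩
        exact ⟨mul_mem hx hy, by rw [cl_mul hx hy, map_add, h1, h2, add_zero]⟩
      inv_mem' := by
        rintro x ⟨hx, h1⟩
        exact ⟨inv_mem hx, by rw [cl_inv hx, map_neg, h1, neg_zero]⟩ }
  have hD : D.Normal := by
    refine ⟨?_⟩
    rintro x ⟨hx, h1⟩ g
    exact ⟨conj_mem hx, by rw [← act_cl g x hx, Psi_act_comm, h1, map_zero]⟩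
  have hle : normalClosure F ≤ D := by
    refine normalClosure_le_normal ?_
    intro x hx
    have hx' : x ∈ _root_.commutator Γ := hF ▸ subset_normalClosure hx
    exact ⟨hx', h x hx hx'⟩
  refine AddMonoidHom.ext fun a => ?_
  obtain ⟨x, hx, rfl⟩ := exists_cl a
  obtain ⟨hx', h1⟩ := hle (hF ▸ hx)
  exact h1

/-- Every orbit has a flat relation. -/
def Good (Γ : Type*) [Group Γ] : Prop :=
  ∀ (t a : Γ) (ha : a ∈ _root_.commutator Γ), ∃ P : ℤ[X], Flat P ∧
    (Psi Γ (aeval (uu t) P)) (cl a ha) = 0

lemma Good.exists_list [Group.FG Γ] (hg : Good Γ) (t : Γ) :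
    ∃ l : List ℤ[X], (∀ P ∈ l, Flat P) ∧ aeval (uu t) l.prod = 0 := by
  classical
  obtain ⟨F, hF⟩ := exists_normal_gens (Γ := Γ)
  have key : ∀ F : Finset Γ, ∃ l : List ℤ[X], (∀ P ∈ l, Flat P) ∧
      ∀ a ∈ F, ∀ ha : a ∈ _root_.commutator Γ, Psi Γ (aeval (uu t) l.prod) (cl a ha) = 0 := by
    intro F
    induction F using Finset.induction_on with
    | empty => exact ⟨[], by simp, by simp⟩
    | insert b F _ ih =>
      obtain ⟨l, hl, h⟩ := ih
      by_cases hb : b ∈ _root_.commutator Γ
      · obtain ⟨P, hP, h0⟩ := hg t b hb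
        refine ⟨P :: l, ?_, ?_⟩
        · intro Q hQ
          rcases List.mem_cons.1 hQ with rfl | hQ
          · exact hP
          · exact hl Q hQ
        · intro a ha ha'
          rw [List.prod_cons, map_mul]
          rcases Finset.mem_insert.1 ha with rfl | ha
          · rw [mul_comm, map_mul]
            show Psi Γ _ (Psi Γ _ _) = 0
            rw [h0, map_zero]
          · rw [map_mul]
            show Psi Γ _ (Psi Γ _ _) = 0
            rw [h a ha ha', map_zero]
      · refine ⟨l, hl, ?_⟩
        intro a ha ha'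
        rcases Finset.mem_insert.1 ha with rfl | ha
        · exact absurd ha' hb
        · exact h a ha ha'
  obtain ⟨l, hl, h⟩ := key F
  exact ⟨l, hl, eq_zero_of_gens hF h⟩

section good

variable [Group.FG Γ]

lemma Good.isIntegral_uu (hg : Good Γ) (t : Γ) : IsIntegral ℤ (uu t) := by
  obtain ⟨l, hl, h⟩ := hg.exists_list t
  exact isIntegral_of_flat hl h

lemma Good.isIntegral (hg : Good Γ) (r : RR Γ) : IsIntegral ℤ r := by
  obtain ⟨f, rfl⟩ := toRR_surj r
  induction f using MonoidAlgebra.induction_on with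
  | of g =>
    induction g using QuotientGroup.induction_on with
    | H g => exact hg.isIntegral_uu g
  | add f g hf hg' => rw [map_add]; exact hf.add hg'
  | smul n f hf =>
    have : toRR Γ (n • f) = n • toRR Γ f := map_zsmul (toRR Γ) n f
    rw [this]
    exact hf.smul n

lemma Good.finite (hg : Good Γ) : Module.Finite ℤ (RR Γ) := by
  have : Monoid.FG (Abelianization Γ) := by
    have : Group.FG (Abelianization Γ) := QuotientGroup.fg _
    exact Group.fg_iff_monoid_fg.1 this
  have h1 : Algebra.FiniteType ℤ (MonoidAlgebra ℤ (Abelianization Γ)) := inferInstance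
  have h2 : Algebra.FiniteType ℤ (RR Γ) :=
    h1.of_surjective (toRR Γ).toIntAlgHom toRR_surj
  have h3 : Algebra.IsIntegral ℤ (RR Γ) := ⟨hg.isIntegral⟩
  exact Algebra.IsIntegral.finite

lemma Good.nilpotent (hg : Good Γ) (t : Γ) :
    ∃ M : ℕ, 0 < M ∧ IsNilpotent (uu t ^ M - 1) := by
  have := hg.finite
  refine exists_pow_sub_one_nilpotent (uu.toHomUnits t) fun s hs => ?_
  obtain ⟨l, hl, h⟩ := hg.exists_list (t ^ s)
  refine ⟨l, hl, ?_⟩
  rw [map_pow] at h
  exact h

end good

/-- The projection of the group to the reduced ring. -/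
noncomputable def red (Γ : Type*) [Group Γ] : Γ →* RR Γ ⧸ nilradical (RR Γ) :=
  (Ideal.Quotient.mk (nilradical (RR Γ))).toMonoidHom.comp uu

lemma mem_ker_red {h : Γ} : h ∈ (red Γ).ker ↔ uu h - 1 ∈ nilradical (RR Γ) := by
  rw [MonoidHom.mem_ker]
  show Ideal.Quotient.mk _ (uu h) = 1 ↔ _
  rw [← map_one (Ideal.Quotient.mk (nilradical (RR Γ))), Ideal.Quotient.eq]

/-- The elements of the commutator subgroup whose class is in a multiple. -/
noncomputable def filt (Γ : Type*) [Group Γ] (I : Ideal (RR Γ)) : Subgroup Γ :=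
  letI : Module (RR Γ) (Ab Γ) := Module.compHom (Ab Γ) (Psi Γ)
  { carrier := {x | ∃ hx : x ∈ _root_.commutator Γ,
      cl x hx ∈ (I • ⊤ : Submodule (RR Γ) (Ab Γ))}
    one_mem' := ⟨one_mem _, by rw [cl_one]; exact Submodule.zero_mem _⟩
    mul_mem' := by
      rintro x y ⟨hx, h1⟩ ⟨hy, h2⟩
      exact ⟨mul_mem hx hy, by rw [cl_mul hx hy]; exact Submodule.add_mem _ h1 h2⟩
    inv_mem' := by
      rintro x ⟨hx, h1⟩
      exact ⟨inv_mem hx, by rw [cl_inv hx]; exact Submodule.neg_mem _ h1⟩ }

lemma itc_le_filt (j : ℕ) :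
    itc (red Γ).ker (_root_.commutator Γ) j ≤ filt Γ (nilradical (RR Γ) ^ j) := by
  letI : Module (RR Γ) (Ab Γ) := Module.compHom (Ab Γ) (Psi Γ)
  induction j with
  | zero =>
    intro x hx
    refine ⟨hx, ?_⟩
    rw [pow_zero, Ideal.one_eq_top, Submodule.top_smul]
    trivial
  | succ j ih =>
    rw [itc, commutator_le]
    intro x hx h hh
    obtain ⟨hx', h1⟩ := ih hx
    have hN : x * (h * x⁻¹ * h⁻¹) ∈ _root_.commutator Γ := mul_mem hx' (conj_mem (inv_mem hx'))
    have e : x * h * x⁻¹ * h⁻¹ = x * (h * x⁻¹ * h⁻¹) := by group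
    show x * h * x⁻¹ * h⁻¹ ∈ _
    rw [e]
    refine ⟨hN, ?_⟩
    have e2 : cl (x * (h * x⁻¹ * h⁻¹)) hN = -((uu h - 1 : RR Γ) • cl x hx') := by
      rw [cl_mul hx' (conj_mem (inv_mem hx')), ← act_cl h x⁻¹ (inv_mem hx'), cl_inv hx', map_neg]
      have e3 : (uu h - 1 : RR Γ) • cl x hx' = act h (cl x hx') - cl x hx' := by
        show Psi Γ (uu h - 1) (cl x hx') = _
        rw [map_sub, Psi_uu, map_one]
        rfl
      rw [e3]; abel
    rw [e2, pow_succ', Submodule.mul_smul]
    exact Submodule.neg_mem _ (Submodule.smul_mem_smul (mem_ker_red.1 hh) h1)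

/-- If all orbits have flat relations, the group is virtually nilpotent. -/
theorem Good.virtNilp [Group.FG Γ] (hg : Good Γ)
    (hN : Group.IsNilpotent (_root_.commutator Γ)) : VirtNilp Γ := by
  have hfin := hg.finite
  have hnoe : IsNoetherian ℤ (RR Γ) := isNoetherian_of_isNoetherianRing_of_finite ℤ _
  have hnoe' : IsNoetherianRing (RR Γ) := isNoetherian_of_tower ℤ hnoe
  have hcle : _root_.commutator Γ ≤ (red Γ).ker := by
    intro x hx
    rw [mem_ker_red, uu_of_mem hx, sub_self]
    exact zero_mem _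
  refine ⟨(red Γ).ker, ?_, ?_⟩
  · let θ : Abelianization Γ →* RR Γ ⧸ nilradical (RR Γ) :=
      QuotientGroup.lift (_root_.commutator Γ) (red Γ) hcle
    have h1 : (red Γ).ker = θ.ker.comap Abelianization.of := by
      ext x
      rfl
    have h2 : Group.FG (Abelianization Γ) := QuotientGroup.fg _
    have h3 : Finite (Abelianization Γ ⧸ θ.ker) := by
      have : Group.FG (Abelianization Γ ⧸ θ.ker) := QuotientGroup.fg _
      refine CommGroup.finite_of_fg_isMulTorsion _ fun x => ?_
      induction x using QuotientGroup.induction_on with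
      | H x =>
        induction x using QuotientGroup.induction_on with
        | H x =>
          obtain ⟨M, hM, hnil⟩ := hg.nilpotent x
          refine isOfFinOrder_iff_pow_eq_one.2 ⟨M, hM, ?_⟩
          have h4 : (Abelianization.of x) ^ M ∈ θ.ker := by
            rw [← map_pow]
            show x ^ M ∈ (red Γ).ker
            rw [mem_ker_red, map_pow]
            exact mem_nilradical.2 hnil
          have h5 := (QuotientGroup.eq_one_iff ((Abelianization.of x) ^ M)).2 h4
          exact h5
    refine ⟨?_⟩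
    rw [h1, Subgroup.index_comap_of_surjective _ (QuotientGroup.mk_surjective)]
    exact Subgroup.index_ne_zero_of_finite
  · obtain ⟨k, hk⟩ := IsNoetherianRing.isNilpotent_nilradical (RR Γ)
    have hle : itc (red Γ).ker (_root_.commutator Γ) k ≤
        ⁅_root_.commutator Γ, _root_.commutator Γ⁆ := by
      intro x hx
      have h1 := itc_le_filt k hx
      rw [hk] at h1
      obtain ⟨hx', h2⟩ := h1
      letI : Module (RR Γ) (Ab Γ) := Module.compHom (Ab Γ) (Psi Γ)
      have h3 : cl x hx' ∈ ((0 : Ideal (RR Γ)) • ⊤ : Submodule (RR Γ) (Ab Γ)) := h2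
      rw [Ideal.zero_eq_bot, Submodule.bot_smul, Submodule.mem_bot] at h3
      exact (cl_eq_zero_iff hx').1 h3
    refine hall_nilpotent _ (_root_.commutator Γ) hN ?_ hle
    exact commutator_mono le_top le_top

end Pool.Agent.Helper87.SSP
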