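import Mathlib

/-!
# Correcting products in nilpotent groups by optional commutators
-/

namespace Pool.Agent.Helper87.SSP

open scoped commutatorElement

variable {G : Type*} [Group G]

/-! ### Removing pairs of letters -/

/-- The product of the elements of a weighted list. -/
def wprod (l : List (G × ℕ)) : G := (l.map Prod.fst).prod

@[simp] lemma wprod_nil : wprod ([] : List (G × ℕ)) = 1 := rfl

@[simp] lemma wprod_cons (p : G × ℕ) (l : List (G × ℕ)) : wprod (p :: l) = p.1 * wprod l := by
  simp [wprod]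

@[simp] lemma wprod_append (l l' : List (G × ℕ)) : wprod (l ++ l') = wprod l * wprod l' := by
  simp [wprod]

/-- The potential. -/
def pot (b C : ℕ) (l : List (G × ℕ)) : ℕ := (l.map fun p => b ^ (C - p.2)).sum

@[simp] lemma pot_nil (b C : ℕ) : pot b C ([] : List (G × ℕ)) = 0 := rfl

@[simp] lemma pot_cons (b C : ℕ) (p : G × ℕ) (l : List (G × ℕ)) :
    pot b C (p :: l) = b ^ (C - p.2) + pot b C l := by simp [pot]

@[simp] lemma pot_append (b C : ℕ) (l l' : List (G × ℕ)) :
    pot b C (l ++ l') = pot b C l + pot b C l' := by simp [pot]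

/-- The letters of a weighted list. -/
def letters (l : List (G × ℕ)) : List G := (l.filter fun p => decide (p.2 = 1)).map Prod.fst

@[simp] lemma letters_nil : letters ([] : List (G × ℕ)) = [] := rfl

lemma letters_cons (p : G × ℕ) (l : List (G × ℕ)) :
    letters (p :: l) = if p.2 = 1 then p.1 :: letters l else letters l := by
  unfold letters
  by_cases h : p.2 = 1 <;> simp [List.filter_cons, h]

@[simp] lemma letters_append (l l' : List (G × ℕ)) :
    letters (l ++ l') = letters l ++ letters l' := by simp [letters]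

/-- Conjugation of a weighted list by a letter. -/
def conjList (C : ℕ) (x : G) : List (G × ℕ) → List (G × ℕ)
  | [] => []
  | p :: l => if p.2 < C then (⁅x, p.1⁆, p.2 + 1) :: p :: conjList C x l else p :: conjList C x l

/-- The weighted list is admissible for a family of sets of commutators. -/
def Adm (S : ℕ → Set G) (C : ℕ) (l : List (G × ℕ)) : Prop :=
  ∀ p ∈ l, p.1 ∈ S p.2 ∧ 1 ≤ p.2 ∧ p.2 ≤ C

/-- A family of sets of commutators of class `C`. -/
structure Fam (S : ℕ → Set G) (C : ℕ) : Prop where
  inv : ∀ x ∈ S 1, x⁻¹ ∈ S 1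
  comm : ∀ x ∈ S 1, ∀ w, 1 ≤ w → ∀ f ∈ S w, ⁅x, f⁆ ∈ S (w + 1)
  triv : ∀ f ∈ S (C + 1), f = 1

lemma Adm.cons {S : ℕ → Set G} {C : ℕ} {p : G × ℕ} {l : List (G × ℕ)} (h : Adm S C (p :: l)) :
    Adm S C l := fun q hq => h q (List.mem_cons_of_mem _ hq)

lemma adm_append {S : ℕ → Set G} {C : ℕ} {l l' : List (G × ℕ)} :
    Adm S C (l ++ l') ↔ Adm S C l ∧ Adm S C l' := by
  unfold Adm
  simp only [List.mem_append]
  constructor
  · intro h
    exact ⟨fun p hp => h p (Or.inl hp), fun p hp => h p (Or.inr hp)⟩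
  · rintro ⟨h1, h2⟩ p (hp | hp)
    · exact h1 p hp
    · exact h2 p hp

lemma conjList_prod {S : ℕ → Set G} {C : ℕ} (hS : Fam S C) {x : G} (hx : x ∈ S 1) :
    ∀ l : List (G × ℕ), Adm S C l → wprod (conjList C x l) = x * wprod l * x⁻¹ := by
  intro l
  induction l with
  | nil => intro _; simp [conjList]
  | cons p l ih =>
    intro h
    have ih' := ih h.cons
    obtain ⟨h1, h2, h3⟩ := h p List.mem_cons_self
    rw [conjList]
    split_ifs with hp
    · rw [wprod_cons, wprod_cons, ih', wprod_cons, commutatorElement_def]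
      group
    · have hC : p.2 = C := by omega
      have h4 : ⁅x, p.1⁆ = 1 := hS.triv _ (by rw [← hC]; exact hS.comm x hx _ h2 _ h1)
      rw [commutatorElement_def, mul_inv_eq_one, mul_inv_eq_iff_eq_mul] at h4
      rw [wprod_cons, ih', wprod_cons, ← mul_assoc, ← mul_assoc, ← h4, ← mul_assoc]

lemma conjList_adm {S : ℕ → Set G} {C : ℕ} (hS : Fam S C) {x : G} (hx : x ∈ S 1) :
    ∀ l : List (G × ℕ), Adm S C l → Adm S C (conjList C x l) := by
  intro l
  induction l with
  | nil => intro _ p hp; simp [conjList] at hp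
  | cons p l ih =>
    intro h
    have ih' := ih h.cons
    obtain ⟨h1, h2, h3⟩ := h p List.mem_cons_self
    rw [conjList]
    split_ifs with hp
    · intro q hq
      rcases List.mem_cons.1 hq with rfl | hq
      · exact ⟨hS.comm x hx _ h2 _ h1, by simp, hp⟩
      · rcases List.mem_cons.1 hq with rfl | hq
        · exact ⟨h1, h2, h3⟩
        · exact ih' q hq
    · intro q hq
      rcases List.mem_cons.1 hq with rfl | hq
      · exact ⟨h1, h2, h3⟩
      · exact ih' q hq

lemma conjList_pot {b C : ℕ} {x : G} :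
    ∀ l : List (G × ℕ), b * pot b C (conjList C x l) ≤ (b + 1) * pot b C l := by
  intro l
  induction l with
  | nil => simp [conjList]
  | cons p l ih =>
    rw [conjList]
    split_ifs with hp
    · rw [pot_cons, pot_cons, pot_cons]
      have e : C - p.2 = (C - (p.2 + 1)) + 1 := by omega
      have e2 : b ^ (C - p.2) = b * b ^ (C - (p.2 + 1)) := by rw [e, pow_succ']
      simp only
      rw [mul_add, mul_add, mul_add, ← e2, add_mul b 1 (b ^ (C - p.2))]
      omega
    · rw [pot_cons, pot_cons, mul_add, mul_add]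
      have : b * b ^ (C - p.2) ≤ (b + 1) * b ^ (C - p.2) := Nat.mul_le_mul_right _ (by omega)
      omega

lemma conjList_letters {C : ℕ} {x : G} :
    ∀ l : List (G × ℕ), (∀ p ∈ l, 1 ≤ p.2) → letters (conjList C x l) = letters l := by
  intro l
  induction l with
  | nil => intro _; simp [conjList]
  | cons p l ih =>
    intro h
    have ih' := ih fun q hq => h q (List.mem_cons_of_mem _ hq)
    have hp1 := h p List.mem_cons_self
    rw [conjList]
    split_ifs with hp
    · rw [letters_cons, if_neg (by simp only; omega), letters_cons, letters_cons, ih']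
    · rw [letters_cons, letters_cons, ih']

lemma mem_of_letters {l : List (G × ℕ)} {x : G} (h : x ∈ letters l) : (x, 1) ∈ l := by
  unfold letters at h
  simp only [List.mem_map, List.mem_filter, decide_eq_true_eq] at h
  obtain ⟨p, ⟨h1, h2⟩, rfl⟩ := h
  rwa [← h2]

/-- Letters that come in inverse pairs can be removed. -/
lemma remove_pairs {S : ℕ → Set G} {b C : ℕ} (hS : Fam S C) :
    ∀ (u : List G) (l : List (G × ℕ)), Adm S C l → (letters l).Perm (u ++ u.map (·⁻¹)) →
      ∃ l' : List (G × ℕ), Adm S C l' ∧ letters l' = [] ∧ wprod l' = wprod l ∧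
        b ^ u.length * pot b C l' ≤ (b + 1) ^ u.length * pot b C l := by
  intro u
  induction u with
  | nil =>
    intro l hl hp
    refine ⟨l, hl, ?_, rfl, by simp⟩
    simpa using hp
  | cons x u ih =>
    intro l hl hp
    have hp' : (letters l).Perm (x :: x⁻¹ :: (u ++ u.map (·⁻¹))) := by
      refine hp.trans ?_
      rw [List.map_cons, List.cons_append]
      exact (List.perm_middle).cons x
    have hx : (x, 1) ∈ l := mem_of_letters (hp'.mem_iff.2 List.mem_cons_self)
    obtain ⟨A, R, rfl⟩ := List.append_of_mem hx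
    have hl' := adm_append.1 hl
    have hxS : x ∈ S 1 := (hl'.2 _ List.mem_cons_self).1
    have hp2 : (letters (A ++ R)).Perm (x⁻¹ :: (u ++ u.map (·⁻¹))) := by
      rw [letters_append, letters_cons, if_pos rfl] at hp'
      rw [letters_append]
      exact (List.perm_cons x).1 (List.perm_middle.symm.trans hp')
    have hx2 : (x⁻¹, 1) ∈ A ++ R := mem_of_letters (hp2.mem_iff.2 List.mem_cons_self)
    have fin : ∀ (A' B' D' : List (G × ℕ)) (y : G), y ∈ S 1 → Adm S C (A' ++ (B' ++ D')) →
        (letters (A' ++ (B' ++ D'))).Perm (u ++ u.map (·⁻¹)) →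
        wprod A' * (y * wprod B' * y⁻¹) * wprod D' = wprod (A ++ (x, 1) :: R) →
        pot b C (A' ++ (B' ++ D')) ≤ pot b C (A ++ (x, 1) :: R) →
        ∃ l' : List (G × ℕ), Adm S C l' ∧ letters l' = [] ∧
          wprod l' = wprod (A ++ (x, 1) :: R) ∧
          b ^ (u.length + 1) * pot b C l' ≤ (b + 1) ^ (u.length + 1) *
            pot b C (A ++ (x, 1) :: R) := by
      intro A' B' D' y hy hadm hlet hprod hpot
      obtain ⟨hA, hBD⟩ := adm_append.1 hadm
      obtain ⟨hB, hD⟩ := adm_append.1 hBD
      obtain ⟨l', h1, h2, h3, h4⟩ := ih (A' ++ (conjList C y B' ++ D'))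
        (adm_append.2 ⟨hA, adm_append.2 ⟨conjList_adm hS hy _ hB, hD⟩⟩)
        (by
          rw [letters_append, letters_append, conjList_letters _ fun p hp => (hB p hp).2.1,
            ← letters_append, ← letters_append]
          exact hlet)
      refine ⟨l', h1, h2, ?_, ?_⟩
      · rw [h3, wprod_append, wprod_append, conjList_prod hS hy _ hB, ← hprod]
        group
      · have h5 : b * pot b C (A' ++ (conjList C y B' ++ D')) ≤
            (b + 1) * pot b C (A' ++ (B' ++ D')) := by
          have h6 := conjList_pot (b := b) (C := C) (x := y) B'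
          simp only [pot_append, mul_add, add_mul, one_mul] at h6 ⊢
          omega
        calc b ^ (u.length + 1) * pot b C l' = b * (b ^ u.length * pot b C l') := by ring
          _ ≤ b * ((b + 1) ^ u.length * pot b C (A' ++ (conjList C y B' ++ D'))) :=
              Nat.mul_le_mul_left _ h4
          _ = (b + 1) ^ u.length * (b * pot b C (A' ++ (conjList C y B' ++ D'))) := by ring
          _ ≤ (b + 1) ^ u.length * ((b + 1) * pot b C (A' ++ (B' ++ D'))) :=
              Nat.mul_le_mul_left _ h5
          _ ≤ (b + 1) ^ u.length * ((b + 1) * pot b C (A ++ (x, 1) :: R)) :=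
              Nat.mul_le_mul_left _ (Nat.mul_le_mul_left _ hpot)
          _ = _ := by ring
    rw [List.length_cons]
    rcases List.mem_append.1 hx2 with hxA | hxR
    · obtain ⟨A1, A2, rfl⟩ := List.append_of_mem hxA
      obtain ⟨h1, h2⟩ := adm_append.1 hl'.1
      have h3 := hl'.2.cons
      refine fin A1 A2 R x⁻¹ (hS.inv x hxS) (adm_append.2 ⟨h1, adm_append.2 ⟨h2.cons, h3⟩⟩) ?_ ?_ ?_
      · rw [letters_append, letters_append, letters_cons, if_pos rfl] at hp2
        rw [letters_append, letters_append]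
        have := (List.perm_cons x⁻¹).1 ((List.perm_middle.symm.append_right _).trans hp2)
        simpa using this
      · simp only [wprod_append, wprod_cons]
        group
      · simp only [pot_append, pot_cons]
        omega
    · obtain ⟨R1, R2, rfl⟩ := List.append_of_mem hxR
      obtain ⟨h1, h2⟩ := adm_append.1 hl'.2.cons
      refine fin A R1 R2 x hxS (adm_append.2 ⟨hl'.1, adm_append.2 ⟨h1, h2.cons⟩⟩) ?_ ?_ ?_
      · rw [letters_append, letters_append, letters_cons, if_pos rfl, ← List.append_assoc] at hp2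
        have := (List.perm_cons x⁻¹).1 (List.perm_middle.symm.trans hp2)
        rw [letters_append, letters_append]
        simpa using this
      · simp only [wprod_append, wprod_cons]
        group
      · simp only [pot_append, pot_cons]
        omega

lemma pow_bound (R : ℕ) : ∀ p : ℕ, p ≤ 2 * R + 2 →
    (2 * R + 2 + 1) ^ p * (2 * R + 2 - p) ≤ (2 * R + 2) ^ p * (2 * R + 2) := by
  intro p
  induction p with
  | zero => intro _; simp
  | succ p ih =>
    intro hp
    have h1 := ih (by omega)
    obtain ⟨d, hd⟩ : ∃ d, 2 * R + 2 = p + 1 + d := ⟨2 * R + 2 - (p + 1), by omega⟩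
    rw [hd] at h1 ⊢
    have e1 : p + 1 + d - p = d + 1 := by omega
    have e2 : p + 1 + d - (p + 1) = d := by omega
    rw [e1] at h1
    rw [e2]
    have h2 : (p + 1 + d + 1) * d ≤ (p + 1 + d) * (d + 1) := by nlinarith
    calc (p + 1 + d + 1) ^ (p + 1) * d = (p + 1 + d + 1) ^ p * ((p + 1 + d + 1) * d) := by ring
      _ ≤ (p + 1 + d + 1) ^ p * ((p + 1 + d) * (d + 1)) := Nat.mul_le_mul_left _ h2
      _ = (p + 1 + d) * ((p + 1 + d + 1) ^ p * (d + 1)) := by ring
      _ ≤ (p + 1 + d) * ((p + 1 + d) ^ p * (p + 1 + d)) := Nat.mul_le_mul_left _ h1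
      _ = _ := by ring

lemma pot_pos {b C : ℕ} (hb : 1 ≤ b) (l : List (G × ℕ)) : l.length ≤ pot b C l := by
  induction l with
  | nil => simp
  | cons p l ih =>
    rw [List.length_cons, pot_cons]
    have : 1 ≤ b ^ (C - p.2) := Nat.one_le_pow _ _ hb
    omega

/-- The bound for the number of commutators. -/
def hb (C R : ℕ) : ℕ := 4 * R * (2 * R + 2) ^ C

/-- A balanced product of at most `2 R` letters is a product of few commutators. -/
lemma balanced {S : ℕ → Set G} {C R : ℕ} (hC : 1 ≤ C) (hS : Fam S C) (u z : List G)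
    (hz : ∀ x ∈ z, x ∈ S 1) (hzu : z.Perm (u ++ u.map (·⁻¹))) (hu : u.length ≤ R) :
    ∃ q : List G, q.length ≤ hb C R ∧ (∀ x ∈ q, ∃ w, 2 ≤ w ∧ w ≤ C ∧ x ∈ S w) ∧
      q.prod = z.prod := by
  have hlen : z.length = 2 * u.length := by
    rw [hzu.length_eq]; simp; ring
  obtain ⟨l', h1, h2, h3, h4⟩ := remove_pairs (b := 2 * R + 2) hS u (z.map fun x => (x, 1))
    (by
      intro p hp
      obtain ⟨x, hx, rfl⟩ := List.mem_map.1 hp
      exact ⟨hz x hx, le_rfl, hC⟩)
    (by
      have : letters (z.map fun x => (x, 1)) = z := by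
        simp [letters, List.filter_map, Function.comp_def]
      rw [this]; exact hzu)
  have hpot : pot (2 * R + 2) C (z.map fun x => (x, 1)) = z.length * (2 * R + 2) ^ (C - 1) := by
    simp [pot, Function.comp_def]
  have h5 : pot (2 * R + 2) C l' ≤ 2 * (z.length * (2 * R + 2) ^ (C - 1)) := by
    have h6 := pow_bound R u.length (by omega)
    rw [hpot] at h4
    set X := pot (2 * R + 2) C l' with hX
    set Y := z.length * (2 * R + 2) ^ (C - 1) with hY
    set P := (2 * R + 2) ^ u.length with hP
    set Q := (2 * R + 2 + 1) ^ u.length with hQ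
    have hPpos : 0 < P := by positivity
    have h7 : R + 1 ≤ 2 * R + 2 - u.length := by omega
    have h8 : Q * (R + 1) ≤ P * (2 * R + 2) := (Nat.mul_le_mul_left _ h7).trans h6
    have h9 : Q ≤ 2 * P := by nlinarith
    have h10 : P * X ≤ P * (2 * Y) := by
      calc P * X ≤ Q * Y := h4
        _ ≤ 2 * P * Y := Nat.mul_le_mul_right _ h9
        _ = P * (2 * Y) := by ring
    exact Nat.le_of_mul_le_mul_left h10 hPpos
  refine ⟨l'.map Prod.fst, ?_, ?_, ?_⟩
  · rw [List.length_map]
    refine (pot_pos (by omega) l').trans (h5.trans ?_)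
    rw [hlen]
    unfold hb
    have h6 : (2 * R + 2) ^ (C - 1) ≤ (2 * R + 2) ^ C := Nat.pow_le_pow_right (by omega) (by omega)
    calc 2 * (2 * u.length * (2 * R + 2) ^ (C - 1)) = 4 * u.length * (2 * R + 2) ^ (C - 1) := by
          ring
      _ ≤ 4 * R * (2 * R + 2) ^ C := Nat.mul_le_mul (by omega) h6
  · intro x hx
    obtain ⟨p, hp, rfl⟩ := List.mem_map.1 hx
    obtain ⟨h6, h7, h8⟩ := h1 p hp
    refine ⟨p.2, ?_, h8, h6⟩
    by_contra hlt
    have h9 : p.2 = 1 := by omega
    have h10 : p.1 ∈ letters l' := by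
      unfold letters
      exact List.mem_map.2 ⟨p, List.mem_filter.2 ⟨hp, by simpa using h9⟩, rfl⟩
    rw [h2] at h10
    simp at h10
  · have h6 : (l'.map Prod.fst).prod = wprod l' := rfl
    rw [h6, h3]
    simp [wprod, Function.comp_def]

end Pool.Agent.Helper87.SSP

namespace Pool.Agent.Helper87.SSP

open scoped commutatorElement

variable {G : Type*} [Group G]

/-! ### Lists of correctors -/

/-- All commutators of elements of two lists. -/
def comms (X Y : List G) : List G := X.flatMap fun x => Y.map fun y => ⁅x, y⁆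

/-- The letters and their inverses. -/
def sym (X : List G) : List G := X ++ X.map (·⁻¹)

/-- Commutators of weight `w + 1` of the letters. -/
def lev (X : List G) : ℕ → List G
  | 0 => sym X
  | w + 1 => comms (sym X) (lev X w)

/-- Commutators of the weights `2, …, C + 1` of the letters. -/
def com (X : List G) : ℕ → List G
  | 0 => []
  | C + 1 => com X C ++ lev X (C + 1)

/-- The list of correctors. -/
def cor : ℕ → List G → ℕ → List G
  | 0, _, _ => []
  | C + 1, X, R => (X.flatMap fun x => List.replicate R x) ++ cor C (com X C) (hb (C + 1) R)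

lemma mem_sym {X : List G} {x : G} : x ∈ sym X ↔ x ∈ X ∨ x⁻¹ ∈ X := by
  unfold sym
  rw [List.mem_append, List.mem_map]
  refine or_congr Iff.rfl ⟨?_, fun h => ⟨_, h, inv_inv x⟩⟩
  rintro ⟨y, hy, rfl⟩
  rwa [inv_inv]

lemma mem_comms {X Y : List G} {x y : G} (hx : x ∈ X) (hy : y ∈ Y) : ⁅x, y⁆ ∈ comms X Y :=
  List.mem_flatMap.2 ⟨x, hx, List.mem_map.2 ⟨y, hy, rfl⟩⟩

lemma mem_com {X : List G} {C : ℕ} {x : G} : x ∈ com X C ↔ ∃ w, 1 ≤ w ∧ w ≤ C ∧ x ∈ lev X w := by
  induction C with
  | zero =>
    simp only [com, List.not_mem_nil, false_iff]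
    rintro ⟨w, h1, h2, -⟩
    omega
  | succ C ih =>
    rw [com, List.mem_append, ih]
    constructor
    · rintro (⟨w, h1, h2, h3⟩ | h)
      · exact ⟨w, h1, by omega, h3⟩
      · exact ⟨C + 1, by omega, le_rfl, h⟩
    · rintro ⟨w, h1, h2, h3⟩
      rcases Nat.lt_or_ge C w with h | h
      · obtain rfl : w = C + 1 := by omega
        exact Or.inr h3
      · exact Or.inl ⟨w, h1, h, h3⟩

open Subgroup in
lemma lev_mem {X : List G} {K : Subgroup G} (hX : ∀ x ∈ X, x ∈ K) (w : ℕ) :
    ∀ x ∈ lev X w, x ∈ K.lowerCentralSeries w := by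
  have hs : ∀ x ∈ sym X, x ∈ K := by
    intro x hx
    rcases mem_sym.1 hx with h | h
    · exact hX x h
    · exact inv_mem_iff.1 (hX _ h)
  induction w with
  | zero => exact hs
  | succ w ih =>
    intro x hx
    rw [lev] at hx
    unfold comms at hx
    obtain ⟨y, hy, hx⟩ := List.mem_flatMap.1 hx
    obtain ⟨z, hz, rfl⟩ := List.mem_map.1 hx
    rw [Subgroup.lowerCentralSeries_succ, commutator_comm]
    exact commutator_mem_commutator (hs y hy) (ih z hz)

lemma com_mem {X : List G} {K : Subgroup G} (hX : ∀ x ∈ X, x ∈ K) (C : ℕ) :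
    ∀ x ∈ com X C, x ∈ K.lowerCentralSeries 1 := by
  intro x hx
  obtain ⟨w, h1, -, h2⟩ := mem_com.1 hx
  exact Subgroup.lowerCentralSeries_antitone K h1 (lev_mem hX w x h2)

lemma cor_mem {K : Subgroup G} : ∀ (C : ℕ) (X : List G) (R : ℕ), (∀ x ∈ X, x ∈ K) →
    ∀ x ∈ cor C X R, x ∈ K := by
  intro C
  induction C with
  | zero => intro X R _ x hx; simp [cor] at hx
  | succ C ih =>
    intro X R hX x hx
    rw [cor, List.mem_append] at hx
    rcases hx with hx | hx
    · obtain ⟨y, hy, hx⟩ := List.mem_flatMap.1 hx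
      rw [List.eq_of_mem_replicate hx]
      exact hX y hy
    · refine ih _ _ (fun y hy => ?_) x hx
      exact Subgroup.lowerCentralSeries_antitone K (Nat.zero_le 1) (com_mem hX C y hy)

lemma lcs_lcs {K L : Subgroup G} (h : K ≤ L.lowerCentralSeries 1) (i : ℕ) :
    K.lowerCentralSeries i ≤ L.lowerCentralSeries (i + 1) := by
  induction i with
  | zero => exact h
  | succ i ih =>
    rw [Subgroup.lowerCentralSeries_succ, Subgroup.lowerCentralSeries_succ]
    exact Subgroup.commutator_mono ih
      (h.trans (Subgroup.lowerCentralSeries_antitone L (Nat.zero_le 1)))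

/-- The family of the commutators of a list of letters. -/
lemma fam_lev {X : List G} {K : Subgroup G} (hX : ∀ x ∈ X, x ∈ K) {C : ℕ}
    (hK : K.lowerCentralSeries C = ⊥) : Fam (fun w => {x | x ∈ lev X (w - 1)}) C := by
  refine ⟨?_, ?_, ?_⟩
  · intro x hx
    have hx' : x ∈ sym X := hx
    show x⁻¹ ∈ sym X
    rw [mem_sym] at hx' ⊢
    rw [inv_inv]
    exact hx'.symm
  · intro x hx w hw f hf
    have hx' : x ∈ sym X := hx
    obtain ⟨w, rfl⟩ := Nat.exists_eq_add_of_le' hw
    exact mem_comms hx' hf
  · intro f hf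
    have := lev_mem hX C f hf
    rwa [hK, Subgroup.mem_bot] at this

lemma balanced_com {X : List G} {K : Subgroup G} (hX : ∀ x ∈ X, x ∈ K) {C R : ℕ}
    (hK : K.lowerCentralSeries (C + 1) = ⊥) (u z : List G)
    (hz : ∀ x ∈ z, x ∈ sym X) (hzu : z.Perm (u ++ u.map (·⁻¹))) (hu : u.length ≤ R) :
    ∃ q : List G, q.length ≤ hb (C + 1) R ∧ (∀ x ∈ q, x ∈ com X C) ∧ q.prod = z.prod := by
  obtain ⟨q, h1, h2, h3⟩ := balanced (C := C + 1) (by omega) (fam_lev hX hK) u z hz hzu hu
  refine ⟨q, h1, fun x hx => ?_, h3⟩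
  obtain ⟨w, hw1, hw2, hw3⟩ := h2 x hx
  exact mem_com.2 ⟨w - 1, by omega, by omega, hw3⟩

/-- **Correctors.** Every product of at most `R` letters is a product of a sublist of the list of
correctors. -/
theorem cor_spec : ∀ (C : ℕ) (X : List G) (R : ℕ) (K : Subgroup G), (∀ x ∈ X, x ∈ K) →
    K.lowerCentralSeries C = ⊥ → ∀ q : List G, (∀ x ∈ q, x ∈ X) → q.length ≤ R →
    ∃ s : List G, s.Sublist (cor C X R) ∧ s.prod = q.prod := by
  classical
  intro C
  induction C with
  | zero =>
    intro X R K hX hK q hq _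
    refine ⟨[], List.Sublist.refl _, ?_⟩
    rw [List.prod_nil, eq_comm]
    refine List.prod_eq_one fun x hx => ?_
    have : x ∈ K.lowerCentralSeries 0 := hX x (hq x hx)
    rwa [hK, Subgroup.mem_bot] at this
  | succ C ih =>
    intro X R K hX hK q hq hqR
    have h1 : q.Subperm (X.flatMap fun x => List.replicate R x) := by
      rw [List.subperm_ext_iff]
      intro x hx
      have h2 : q.count x ≤ R := List.count_le_length.trans hqR
      refine h2.trans ?_
      obtain ⟨A, B, hAB⟩ := List.append_of_mem (hq x hx)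
      rw [hAB, List.flatMap_append, List.flatMap_cons, List.count_append, List.count_append,
        List.count_replicate_self]
      omega
    obtain ⟨s, hs1, hs2⟩ := h1
    obtain ⟨q', h3, h4, h5⟩ := balanced_com (R := R) hX hK q ((s.reverse.map (·⁻¹)) ++ q)
      (by
        intro x hx
        rcases List.mem_append.1 hx with hx | hx
        · obtain ⟨y, hy, rfl⟩ := List.mem_map.1 hx
          rw [mem_sym, inv_inv]
          exact Or.inr (hq y (hs1.mem_iff.1 (List.mem_reverse.1 hy)))
        · exact mem_sym.2 (Or.inl (hq x hx)))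
      (by
        refine List.perm_append_comm.trans (List.Perm.append_left _ ?_)
        exact (List.Perm.map _ ((List.reverse_perm s).trans hs1)))
      hqR
    obtain ⟨s', h6, h7⟩ := ih (com X C) (hb (C + 1) R) (K.lowerCentralSeries 1)
      (com_mem hX C) (by
        rw [← le_bot_iff, ← hK]
        exact lcs_lcs le_rfl C) q' h4 h3
    refine ⟨s ++ s', ?_, ?_⟩
    · rw [cor]
      exact hs2.append h6
    · rw [List.prod_append, h7, h5, List.prod_append]
      have : ((s.reverse.map (·⁻¹)).prod : G) = s.prod⁻¹ := by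
        rw [List.prod_inv_reverse, List.map_reverse]
      rw [this]
      group

end Pool.Agent.Helper87.SSP
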