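import Pool.Agent.Helper87.SSP.BadPair
import Pool.Agent.Helper87.SSP.Collect

/-!
# Exact covers as subset sums
-/

namespace Pool.Agent.Helper87.SSP

open Polynomial

variable {Γ : Type*} [Group Γ]

/-- The conjugates of `a` by the powers of `t`. -/
def DD (t a : Γ) (k : ℕ) : Γ := t ^ k * a * (t ^ k)⁻¹

lemma DD_mem {t a : Γ} (ha : a ∈ commutator Γ) (k : ℕ) : DD t a k ∈ commutator Γ := conj_mem ha

/-- The orbit of `a` has no flat relation. -/
def Diss (t a : Γ) (ha : a ∈ commutator Γ) : Prop :=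
  ∀ P : ℤ[X], Flat P → Psi Γ (aeval (uu t) P) (cl a ha) ≠ 0

lemma not_good_iff : ¬ Good Γ ↔ ∃ (t a : Γ) (ha : a ∈ commutator Γ), Diss t a ha := by
  unfold Good Diss
  push Not
  rfl

/-- Evaluation of polynomials. -/
noncomputable def theta (t a : Γ) (ha : a ∈ commutator Γ) : ℤ[X] →+ Ab Γ where
  toFun P := Psi Γ (aeval (uu t) P) (cl a ha)
  map_zero' := by rw [map_zero, map_zero]; rfl
  map_add' P Q := by rw [map_add, map_add]; rfl

lemma theta_X_pow (t a : Γ) (ha : a ∈ commutator Γ) (k : ℕ) :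
    theta t a ha (X ^ k) = cl (DD t a k) (DD_mem ha k) := by
  show Psi Γ (aeval (uu t) (X ^ k)) (cl a ha) = _
  rw [aeval_X_pow, ← map_pow, Psi_uu, act_cl]
  rfl

lemma coeff_sum_X_pow (l : List ℕ) (k : ℕ) :
    ((l.map fun i => (X ^ i : ℤ[X])).sum).coeff k = l.count k := by
  induction l with
  | nil => simp
  | cons i l ih =>
    rw [List.map_cons, List.sum_cons, coeff_add, ih, coeff_X_pow, List.count_cons]
    push_cast
    by_cases h : k = i
    · subst h; simp; ring
    · have : ¬ i = k := fun e => h e.symm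
      simp [h, this]

lemma Diss.lists {t a : Γ} {ha : a ∈ commutator Γ} (hd : Diss t a ha) {Xs Ys : List ℕ}
    (hX : Xs.Nodup) (hY : Ys.Nodup)
    (h : (Xs.map fun k => cl (DD t a k) (DD_mem ha k)).sum =
      (Ys.map fun k => cl (DD t a k) (DD_mem ha k)).sum) (k : ℕ) : k ∈ Xs ↔ k ∈ Ys := by
  set P : ℤ[X] := (Xs.map fun i => X ^ i).sum - (Ys.map fun i => X ^ i).sum with hP
  have h1 : theta t a ha P = 0 := by
    rw [hP, map_sub, map_list_sum, map_list_sum, List.map_map, List.map_map, sub_eq_zero]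
    have : (⇑(theta t a ha) ∘ fun i => (X ^ i : ℤ[X])) =
        fun k => cl (DD t a k) (DD_mem ha k) := by
      funext k
      exact theta_X_pow t a ha k
    rw [this, h]
  have h2 : ∀ k, P.coeff k = (Xs.count k : ℤ) - Ys.count k := by
    intro k
    rw [hP, coeff_sub, coeff_sum_X_pow, coeff_sum_X_pow]
  have h3 : P = 0 := by
    by_contra hne
    refine hd P ⟨hne, fun i => ?_⟩ h1
    rw [h2]
    have h4 := List.nodup_iff_count_le_one.1 hX i
    have h5 := List.nodup_iff_count_le_one.1 hY i
    rw [abs_le]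
    constructor <;> omega
  have h4 := h2 k
  rw [h3, coeff_zero] at h4
  rw [← List.count_pos_iff, ← List.count_pos_iff]
  omega

lemma Diss.pow_mem {t a : Γ} {ha : a ∈ commutator Γ} (hd : Diss t a ha) {k : ℕ}
    (h : t ^ k ∈ commutator Γ) : k = 0 := by
  have h1 := hd.lists (Xs := [k]) (Ys := [0]) (by simp) (by simp) (by
    simp only [List.map_cons, List.map_nil, List.sum_cons, List.sum_nil, add_zero]
    have e1 : cl (DD t a k) (DD_mem ha k) = act (t ^ k) (cl a ha) := by rw [act_cl]; rfl
    have e2 : cl (DD t a 0) (DD_mem ha 0) = act (t ^ 0) (cl a ha) := by rw [act_cl]; rfl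
    rw [e1, e2, act_of_mem h, act_of_mem (by rw [pow_zero]; exact one_mem _)]) k
  simpa using h1

section gadget

variable (n m : ℕ) (A : ℕ → ℕ → Bool)

/-- The shift after erasing. -/
def EE : ℕ := m + 1

/-- The length of the blocks. -/
def BB : ℕ := 4 * (m + 1) ^ 2

/-- The cells of a set. -/
def cells (j : ℕ) : List ℕ :=
  ((List.range m).filter fun i => A j i).map fun i => m * EE m + j * BB m + i

/-- The base point of an erasing element. -/
def idx (p : ℕ × ℕ) : ℕ := p.2 * BB m + p.1 + (m - p.1) * EE m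

/-- The pairs of an element and a set. -/
def pairs : List (ℕ × ℕ) := (List.range m).flatMap fun i => (List.range n).map fun r => (i, r)

/-- The element of a set. -/
def setEl (t a : Γ) (j : ℕ) : Γ := ((cells m A j).map (DD t a)).prod

/-- The erasing element of a pair. -/
def eraseEl (t a : Γ) (p : ℕ × ℕ) : Γ := (DD t a (idx m p))⁻¹ * t ^ EE m

/-- The list of the group elements. -/
def gList (t a : Γ) : List Γ :=
  (List.range n).map (setEl m A t a) ++ (pairs n m).map (eraseEl m t a)

end gadget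

lemma DD_shift (t a : Γ) (k c : ℕ) : t ^ c * DD t a k = DD t a (k + c) * t ^ c := by
  unfold DD
  rw [pow_add]
  have : t ^ k * t ^ c = t ^ c * t ^ k := by rw [← pow_add, ← pow_add, add_comm]
  rw [this]
  group

lemma DD_inv_shift (t a : Γ) (k c : ℕ) : t ^ c * (DD t a k)⁻¹ = (DD t a (k + c))⁻¹ * t ^ c := by
  have h := DD_shift t a k c
  rw [eq_inv_mul_iff_mul_eq, ← mul_assoc, ← h]
  group

/-- The product of erasing elements. -/
lemma erase_prod (m : ℕ) (t a : Γ) (K : List (ℕ × ℕ)) : ∀ c : ℕ,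
    t ^ (c * EE m) * (K.map (eraseEl m t a)).prod =
      ((K.zipIdx c).map fun p => (DD t a (idx m p.1 + p.2 * EE m))⁻¹).prod *
        t ^ ((c + K.length) * EE m) := by
  induction K with
  | nil => intro c; simp
  | cons p K ih =>
    intro c
    rw [List.map_cons, List.prod_cons, List.zipIdx_cons, List.map_cons, List.prod_cons,
      List.length_cons]
    have h := ih (c + 1)
    have e : c + (K.length + 1) = c + 1 + K.length := by ring
    rw [e, mul_assoc, ← h, eraseEl, add_mul, one_mul, pow_add]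
    simp only [← mul_assoc]
    rw [DD_inv_shift]

lemma erase_prod' (m : ℕ) (t a : Γ) (K : List (ℕ × ℕ)) :
    (K.map (eraseEl m t a)).prod =
      (K.zipIdx.map fun p => (DD t a (idx m p.1 + p.2 * EE m))⁻¹).prod *
        t ^ (K.length * EE m) := by
  have := erase_prod m t a K 0
  simpa using this

/-- The lit cells. -/
def plus (m : ℕ) (A : ℕ → ℕ → Bool) (J : List ℕ) : List ℕ := J.flatMap (cells m A)

/-- The erased cells. -/
def minus (m : ℕ) (K : List (ℕ × ℕ)) : List ℕ := K.zipIdx.map fun p => idx m p.1 + p.2 * EE m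

lemma cl_plus (t a : Γ) (ha : a ∈ commutator Γ) (Xs : List ℕ) :
    ∃ h : (Xs.map (DD t a)).prod ∈ commutator Γ,
      cl _ h = (Xs.map fun k => cl (DD t a k) (DD_mem ha k)).sum := by
  induction Xs with
  | nil => exact ⟨one_mem _, rfl⟩
  | cons x Xs ih =>
    obtain ⟨h, h1⟩ := ih
    refine ⟨mul_mem (DD_mem ha x) h, ?_⟩
    show cl (DD t a x * (Xs.map (DD t a)).prod) (mul_mem (DD_mem ha x) h) = _
    rw [cl_mul (DD_mem ha x) h, h1]
    rfl

lemma cl_minus (t a : Γ) (ha : a ∈ commutator Γ) (Xs : List ℕ) :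
    ∃ h : (Xs.map fun k => (DD t a k)⁻¹).prod ∈ commutator Γ,
      cl _ h = -(Xs.map fun k => cl (DD t a k) (DD_mem ha k)).sum := by
  induction Xs with
  | nil => exact ⟨one_mem _, by simp [cl_one]⟩
  | cons x Xs ih =>
    obtain ⟨h, h1⟩ := ih
    refine ⟨mul_mem (inv_mem (DD_mem ha x)) h, ?_⟩
    show cl ((DD t a x)⁻¹ * (Xs.map fun k => (DD t a k)⁻¹).prod)
      (mul_mem (inv_mem (DD_mem ha x)) h) = _
    rw [cl_mul (inv_mem (DD_mem ha x)) h, h1, cl_inv (DD_mem ha x), List.map_cons, List.sum_cons,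
      neg_add]

lemma setEl_prod (m : ℕ) (A : ℕ → ℕ → Bool) (t a : Γ) (J : List ℕ) :
    (J.map (setEl m A t a)).prod = ((plus m A J).map (DD t a)).prod := by
  induction J with
  | nil => rfl
  | cons j J ih =>
    rw [List.map_cons, List.prod_cons, ih, plus, plus, List.flatMap_cons, List.map_append,
      List.prod_append]
    rfl

lemma erase_prod'' (m : ℕ) (t a : Γ) (K : List (ℕ × ℕ)) :
    (K.map (eraseEl m t a)).prod = ((minus m K).map fun k => (DD t a k)⁻¹).prod *
        t ^ (K.length * EE m) := by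
  rw [erase_prod', minus, List.map_map]
  rfl

/-- The equation of the gadget in the abelianization. -/
lemma gadget_eq {t a : Γ} {ha : a ∈ commutator Γ} (hd : Diss t a ha) (m : ℕ)
    (A : ℕ → ℕ → Bool) (J : List ℕ) (K : List (ℕ × ℕ)) {w : Γ}
    (hw : w ∈ ⁅commutator Γ, commutator Γ⁆)
    (h : w * ((J.map (setEl m A t a)).prod * (K.map (eraseEl m t a)).prod) = t ^ (m * EE m)) :
    K.length = m ∧ ((plus m A J).map fun k => cl (DD t a k) (DD_mem ha k)).sum =
      ((minus m K).map fun k => cl (DD t a k) (DD_mem ha k)).sum := by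
  obtain ⟨hP, eP⟩ := cl_plus t a ha (plus m A J)
  obtain ⟨hM, eM⟩ := cl_minus t a ha (minus m K)
  have hwN : w ∈ commutator Γ := Subgroup.commutator_le_self _ hw
  rw [setEl_prod, erase_prod''] at h
  have h1 : w * (((plus m A J).map (DD t a)).prod * ((minus m K).map fun k =>
      (DD t a k)⁻¹).prod) * t ^ (K.length * EE m) = t ^ (m * EE m) := by
    rw [← h]
    simp only [mul_assoc]
  have hN : w * (((plus m A J).map (DD t a)).prod * ((minus m K).map fun k =>
      (DD t a k)⁻¹).prod) ∈ commutator Γ := mul_mem hwN (mul_mem hP hM)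
  have hE : EE m ≠ 0 := by unfold EE; omega
  have hlen : K.length = m := by
    rcases le_total K.length m with hle | hle
    · obtain ⟨d, rfl⟩ := Nat.exists_eq_add_of_le hle
      have h2 : t ^ (d * EE (K.length + d)) ∈ commutator Γ := by
        have e : (K.length + d) * EE (K.length + d) = d * EE (K.length + d) +
          K.length * EE (K.length + d) := by ring
        rw [e, pow_add, mul_left_inj] at h1
        rw [← h1]; exact hN
      have h3 := hd.pow_mem h2
      rcases Nat.mul_eq_zero.1 h3 with h4 | h4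
      · omega
      · exact absurd h4 hE
    · obtain ⟨d, hd'⟩ := Nat.exists_eq_add_of_le hle
      have h2 : t ^ (d * EE m) ∈ commutator Γ := by
        have e : K.length * EE m = d * EE m + m * EE m := by rw [hd']; ring
        rw [e, pow_add, ← mul_assoc, mul_eq_right, mul_eq_one_iff_eq_inv] at h1
        rw [h1] at hN
        exact inv_mem_iff.1 hN
      have h3 := hd.pow_mem h2
      rcases Nat.mul_eq_zero.1 h3 with h4 | h4
      · omega
      · exact absurd h4 hE
  refine ⟨hlen, ?_⟩
  rw [hlen, mul_eq_right] at h1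
  have h2 : cl _ hN = 0 := by
    rw [cl_eq_zero_iff, h1]; exact one_mem _
  rw [cl_mul hwN (mul_mem hP hM), cl_mul hP hM, (cl_eq_zero_iff hwN).2 hw, zero_add, eP, eM,
    ← sub_eq_add_neg, sub_eq_zero] at h2
  exact h2

/-! ### Arithmetic of the cells -/

lemma base_unique {B r j u v : ℕ} (hu : u < B) (hv : v < B) (h : r * B + u = j * B + v) :
    r = j ∧ u = v := by
  have h1 : (r * B + u) / B = r := by
    rw [mul_comm, Nat.mul_add_div (by omega), Nat.div_eq_of_lt hu, add_zero]
  have h2 : (j * B + v) / B = j := by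
    rw [mul_comm, Nat.mul_add_div (by omega), Nat.div_eq_of_lt hv, add_zero]
  have h3 : r = j := by rw [← h1, h, h2]
  subst h3
  exact ⟨rfl, by omega⟩

lemma small (m i d c : ℕ) (hi : i < m) (hd : d ≤ m) (hc : c ≤ m) :
    i + d * EE m + c * EE m < BB m := by
  unfold EE BB
  have h1 : d * (m + 1) ≤ m * (m + 1) := Nat.mul_le_mul_right _ hd
  have h2 : c * (m + 1) ≤ m * (m + 1) := Nat.mul_le_mul_right _ hc
  nlinarith

lemma plus_minus_eq {m i i' c r j : ℕ} (hi : i < m) (hi' : i' < m) (hc : c ≤ m)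
    (h : idx m (i, r) + c * EE m = m * EE m + j * BB m + i') : r = j ∧ i = i' ∧ c = i := by
  unfold idx at h
  simp only at h
  have h1 : r * BB m + (i + (m - i) * EE m + c * EE m) = j * BB m + (i' + m * EE m + 0 * EE m) := by
    rw [zero_mul]; omega
  obtain ⟨h2, h3⟩ := base_unique (small m i (m - i) c hi (by omega) hc)
    (small m i' m 0 hi' le_rfl (by omega)) h1
  refine ⟨h2, ?_⟩
  obtain ⟨d, rfl⟩ := Nat.exists_eq_add_of_le hi.le
  have e : i + d - i = d := by omega
  rw [e] at h3
  have h4 : c * EE (i + d) + i = i * EE (i + d) + i' := by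
    have : (i + d) * EE (i + d) = i * EE (i + d) + d * EE (i + d) := by ring
    omega
  have h5 := base_unique (by unfold EE; omega) (by unfold EE; omega) h4
  exact ⟨h5.2, h5.1⟩

lemma minus_eq {m i i' c c' r r' : ℕ} (hi : i < m) (hi' : i' < m) (hc : c ≤ m) (hc' : c' ≤ m)
    (h : idx m (i, r) + c * EE m = idx m (i', r') + c' * EE m) : c = c' := by
  unfold idx at h
  simp only at h
  have h1 : r * BB m + (i + (m - i) * EE m + c * EE m) =
      r' * BB m + (i' + (m - i') * EE m + c' * EE m) := by omega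
  obtain ⟨-, h3⟩ := base_unique (small m i (m - i) c hi (by omega) hc)
    (small m i' (m - i') c' hi' (by omega) hc') h1
  have h4 : (m - i + c) * EE m + i = (m - i' + c') * EE m + i' := by
    rw [add_mul, add_mul]; omega
  have h5 := base_unique (by unfold EE; omega) (by unfold EE; omega) h4
  omega

lemma mem_plus {m : ℕ} {A : ℕ → ℕ → Bool} {J : List ℕ} {x : ℕ} :
    x ∈ plus m A J ↔ ∃ j ∈ J, ∃ i < m, A j i = true ∧ x = m * EE m + j * BB m + i := by
  unfold plus cells
  simp only [List.mem_flatMap, List.mem_map, List.mem_filter, List.mem_range]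
  constructor
  · rintro ⟨j, hj, i, ⟨hi, hA⟩, rfl⟩
    exact ⟨j, hj, i, hi, hA, rfl⟩
  · rintro ⟨j, hj, i, hi, hA, rfl⟩
    exact ⟨j, hj, i, ⟨hi, hA⟩, rfl⟩

lemma nodup_plus {m : ℕ} {A : ℕ → ℕ → Bool} {J : List ℕ} (hJ : J.Nodup) :
    (plus m A J).Nodup := by
  unfold plus
  rw [List.nodup_flatMap]
  refine ⟨fun j _ => ?_, hJ.imp fun {j j'} hne => ?_⟩
  · unfold cells
    refine (List.nodup_range.filter _).map fun x y h => ?_
    simpa using h
  · intro x hx hx'
    unfold cells at hx hx'
    simp only [List.mem_map, List.mem_filter, List.mem_range] at hx hx'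
    obtain ⟨i, ⟨hi, -⟩, rfl⟩ := hx
    obtain ⟨i', ⟨hi', -⟩, h⟩ := hx'
    have h1 : j' * BB m + (i' + m * EE m + 0 * EE m) = j * BB m + (i + m * EE m + 0 * EE m) := by
      rw [zero_mul]; omega
    exact hne (base_unique (small m i' m 0 hi' le_rfl (by omega))
      (small m i m 0 hi le_rfl (by omega)) h1).1.symm

lemma mem_minus {m : ℕ} {K : List (ℕ × ℕ)} {x : ℕ} :
    x ∈ minus m K ↔ ∃ (c : ℕ) (h : c < K.length), x = idx m K[c] + c * EE m := by
  unfold minus
  simp only [List.mem_map, Prod.exists]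
  constructor
  · rintro ⟨p, q, c, h, rfl⟩
    obtain ⟨h1, h2, h3⟩ := List.mem_zipIdx h
    refine ⟨c, by omega, ?_⟩
    simp only [Nat.sub_zero] at h3
    rw [← h3]
  · rintro ⟨c, h, rfl⟩
    refine ⟨K[c].1, K[c].2, c, ?_, rfl⟩
    rw [List.mem_iff_getElem]
    exact ⟨c, by simpa using h, by simp⟩

lemma nodup_minus {m : ℕ} {K : List (ℕ × ℕ)} (hK : ∀ p ∈ K, p.1 < m) (hlen : K.length ≤ m) :
    (minus m K).Nodup := by
  unfold minus
  rw [List.nodup_iff_injective_getElem]
  intro c c' h
  have hc := c.2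
  have hc' := c'.2
  simp only [List.length_map, List.length_zipIdx] at hc hc'
  simp only [List.getElem_map, List.getElem_zipIdx, Nat.zero_add] at h
  have h1 := minus_eq (m := m) (i := K[c.1].1) (r := K[c.1].2) (i' := K[c'.1].1) (r' := K[c'.1].2)
    (hK _ (List.getElem_mem _)) (hK _ (List.getElem_mem _)) (by omega) (by omega) h
  exact Fin.ext h1

/-- **Soundness of the gadget.** -/
theorem sound {t a : Γ} {ha : a ∈ commutator Γ} (hd : Diss t a ha) (n m : ℕ)
    (A : ℕ → ℕ → Bool) (W : List Γ) (hW : ∀ x ∈ W, x ∈ ⁅commutator Γ, commutator Γ⁆)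
    (s : List Γ) (hs : s.Sublist (W ++ gList n m A t a)) (h : s.prod = t ^ (m * EE m)) :
    ∃ c : ℕ → Prop, ∀ i < m, ∃ r < n, c r ∧ A r i = true ∧
      ∀ r' < n, c r' → A r' i = true → r' = r := by
  unfold gList at hs
  obtain ⟨w, s', rfl, hw, hs'⟩ := List.sublist_append_iff.1 hs
  obtain ⟨p1, p2, rfl, hp1, hp2⟩ := List.sublist_append_iff.1 hs'
  obtain ⟨J, hJ, rfl⟩ := List.sublist_map_iff.1 hp1
  obtain ⟨K, hK, rfl⟩ := List.sublist_map_iff.1 hp2
  have hwN : w.prod ∈ ⁅commutator Γ, commutator Γ⁆ :=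
    Subgroup.list_prod_mem _ fun x hx => hW x (hw.subset hx)
  rw [List.prod_append, List.prod_append] at h
  obtain ⟨hlen, heq⟩ := gadget_eq hd m A J K hwN h
  have hK' : ∀ p ∈ K, p.1 < m := by
    intro p hp
    have := hK.subset hp
    unfold pairs at this
    simp only [List.mem_flatMap, List.mem_map, List.mem_range] at this
    obtain ⟨i, hi, r, -, rfl⟩ := this
    exact hi
  have hJn : J.Nodup := hJ.nodup List.nodup_range
  have hmem := hd.lists (nodup_plus hJn) (nodup_minus hK' hlen.le) heq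
  have key : ∀ (c : ℕ) (hc : c < K.length), K[c].1 = c ∧ K[c].2 ∈ J ∧ A K[c].2 c = true := by
    intro c hc
    have h1 : idx m K[c] + c * EE m ∈ minus m K := mem_minus.2 ⟨c, hc, rfl⟩
    obtain ⟨j, hj, i', hi', hA, he⟩ := mem_plus.1 ((hmem _).2 h1)
    obtain ⟨h2, h3, h4⟩ := plus_minus_eq (hK' _ (List.getElem_mem hc)) hi' (by omega)
      (i := K[c].1) (r := K[c].2) he
    refine ⟨h4.symm, by rw [h2]; exact hj, ?_⟩
    rw [h2, h4, h3]; exact hA
  refine ⟨fun j => j ∈ J, fun i hi => ?_⟩
  have hiK : i < K.length := by omega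
  obtain ⟨h1, h2, h3⟩ := key i hiK
  refine ⟨K[i].2, List.mem_range.1 (hJ.subset h2), h2, h3, ?_⟩
  intro r' _ hr' hA
  have h4 : m * EE m + r' * BB m + i ∈ plus m A J := mem_plus.2 ⟨r', hr', i, hi, hA, rfl⟩
  obtain ⟨c, hc, he⟩ := mem_minus.1 ((hmem _).1 h4)
  obtain ⟨h5, h6, h7⟩ := plus_minus_eq (hK' _ (List.getElem_mem hc)) hi (by omega)
    (i := K[c].1) (r := K[c].2) he.symm
  have h8 : c = i := by rw [h7, h6]
  subst h8
  exact h5.symm

/-! ### Completeness -/

/-- All cells. -/
def allCells (n m : ℕ) : List ℕ :=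
  (List.range n).flatMap fun j => (List.range m).map fun i => m * EE m + j * BB m + i

/-- The list of correctors of the gadget. -/
def corr (C n m : ℕ) (t a : Γ) : List Γ :=
  cor C (com ((allCells n m).map (DD t a)) C) (hb (C + 1) m)

lemma cellsD_mem {t a : Γ} (ha : a ∈ commutator Γ) (n m : ℕ) :
    ∀ x ∈ (allCells n m).map (DD t a), x ∈ commutator Γ := by
  intro x hx
  obtain ⟨k, -, rfl⟩ := List.mem_map.1 hx
  exact DD_mem ha k

lemma corr_mem (C n m : ℕ) {t a : Γ} (ha : a ∈ commutator Γ) :
    ∀ x ∈ corr C n m t a, x ∈ ⁅commutator Γ, commutator Γ⁆ := by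
  intro x hx
  exact cor_mem (K := (commutator Γ).lowerCentralSeries 1) C _ _
    (com_mem (cellsD_mem ha n m) C) x hx

lemma flatMap_sublist {α β : Type*} {f g : α → List β} :
    ∀ l : List α, (∀ x ∈ l, (f x).Sublist (g x)) → (l.flatMap f).Sublist (l.flatMap g) := by
  intro l
  induction l with
  | nil => intro _; exact List.Sublist.refl _
  | cons x l ih =>
    intro h
    rw [List.flatMap_cons, List.flatMap_cons]
    exact (h x List.mem_cons_self).append (ih fun y hy => h y (List.mem_cons_of_mem _ hy))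

/-- **Completeness of the gadget.** -/
theorem complete {t a : Γ} (ha : a ∈ commutator Γ) (n m : ℕ)
    (A : ℕ → ℕ → Bool) {C : ℕ} (hC : (commutator Γ).lowerCentralSeries (C + 1) = ⊥)
    (c : ℕ → Prop) (hc : ∀ i < m, ∃ r < n, c r ∧ A r i = true ∧
      ∀ r' < n, c r' → A r' i = true → r' = r) :
    ∃ s : List Γ, s.Sublist (corr C n m t a ++ gList n m A t a) ∧ s.prod = t ^ (m * EE m) := by
  classical
  choose! r hr using hc
  set J := (List.range n).filter fun j => decide (c j) with hJ
  set K := (List.range m).map fun i => (i, r i) with hK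
  have hJn : J.Nodup := List.nodup_range.filter _
  have hKlen : K.length = m := by simp [hK]
  have hK' : ∀ p ∈ K, p.1 < m := by
    intro p hp
    obtain ⟨i, hi, rfl⟩ := List.mem_map.1 hp
    exact List.mem_range.1 hi
  have hKget : ∀ (i : ℕ) (h : i < K.length), K[i] = (i, r i) := by
    intro i h
    simp [hK]
  have hcell : ∀ i < m, idx m (i, r i) + i * EE m = m * EE m + r i * BB m + i := by
    intro i hi
    unfold idx
    simp only
    have : (m - i) * EE m + i * EE m = m * EE m := by rw [← add_mul]; congr 1; omega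
    omega
  have hperm : (plus m A J).Perm (minus m K) := by
    rw [List.perm_ext_iff_of_nodup (nodup_plus hJn) (nodup_minus hK' hKlen.le)]
    intro x
    rw [mem_plus, mem_minus]
    constructor
    · rintro ⟨j, hj, i, hi, hA, rfl⟩
      have hj' := List.mem_filter.1 hj
      obtain ⟨h1, h2, h3, h4⟩ := hr i hi
      have h5 := h4 j (List.mem_range.1 hj'.1) (by simpa using hj'.2) hA
      refine ⟨i, by omega, ?_⟩
      rw [hKget, hcell i hi, h5]
    · rintro ⟨i, hi, rfl⟩
      rw [hKlen] at hi
      obtain ⟨h1, h2, h3, h4⟩ := hr i hi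
      refine ⟨r i, ?_, i, hi, h3, ?_⟩
      · exact List.mem_filter.2 ⟨List.mem_range.2 h1, by simpa using h2⟩
      · rw [hKget, hcell i hi]
  set u := (minus m K).map (DD t a) with hu
  have hulen : u.length = m := by simp [hu, minus, hKlen]
  set z := ((minus m K).map (DD t a)).reverse ++ ((plus m A J).map fun k => (DD t a k)⁻¹).reverse
    with hz
  have hzprod : z.prod * (((plus m A J).map (DD t a)).prod *
      ((minus m K).map fun k => (DD t a k)⁻¹).prod) = 1 := by
    have e1 : ((plus m A J).map fun k => (DD t a k)⁻¹).reverse.prod =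
        (((plus m A J).map (DD t a)).prod)⁻¹ := by
      rw [List.prod_inv_reverse, List.map_map]; rfl
    have e2 : ((minus m K).map fun k => (DD t a k)⁻¹).prod =
        (((minus m K).map (DD t a)).reverse.prod)⁻¹ := by
      rw [List.prod_inv_reverse, List.map_reverse, List.reverse_reverse, List.map_map]; rfl
    rw [hz, List.prod_append, e1, e2]
    group
  have hmemX : ∀ x ∈ minus m K, DD t a x ∈ (allCells n m).map (DD t a) := by
    intro x hx
    obtain ⟨j, hj, i, hi, -, rfl⟩ := mem_plus.1 (hperm.mem_iff.2 hx)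
    refine List.mem_map_of_mem ?_
    unfold allCells
    simp only [List.mem_flatMap, List.mem_map, List.mem_range]
    exact ⟨j, List.mem_range.1 (List.mem_filter.1 hj).1, i, hi, rfl⟩
  obtain ⟨q, h1, h2, h3⟩ := balanced_com (R := m) (cellsD_mem (t := t) ha n m) hC u z
    (by
      intro x hx
      rw [mem_sym]
      rcases List.mem_append.1 hx with hx | hx
      · obtain ⟨k, hk, rfl⟩ := List.mem_map.1 (List.mem_reverse.1 hx)
        exact Or.inl (hmemX k hk)
      · obtain ⟨k, hk, rfl⟩ := List.mem_map.1 (List.mem_reverse.1 hx)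
        rw [inv_inv]
        exact Or.inr (hmemX k (hperm.mem_iff.1 hk)))
    (by
      refine List.Perm.append (List.reverse_perm _) ((List.reverse_perm _).trans ?_)
      rw [hu, List.map_map]
      exact hperm.map _)
    hulen.le
  obtain ⟨w, h4, h5⟩ := cor_spec C (com ((allCells n m).map (DD t a)) C) (hb (C + 1) m)
    ((commutator Γ).lowerCentralSeries 1) (com_mem (cellsD_mem ha n m) C)
    (by rw [← le_bot_iff, ← hC]; exact lcs_lcs le_rfl C) q h2 h1
  refine ⟨w ++ (J.map (setEl m A t a) ++ K.map (eraseEl m t a)), ?_, ?_⟩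
  · refine List.Sublist.append h4 ?_
    unfold gList
    refine List.Sublist.append (List.filter_sublist.map _) (List.Sublist.map _ ?_)
    have e : K = (List.range m).flatMap fun i => [(i, r i)] := by
      rw [hK, ← List.map_eq_flatMap]
    rw [e]
    unfold pairs
    refine flatMap_sublist _ fun i hi => ?_
    rw [List.singleton_sublist, List.mem_map]
    exact ⟨r i, List.mem_range.2 (hr i (List.mem_range.1 hi)).1, rfl⟩
  · rw [List.prod_append, List.prod_append, setEl_prod, erase_prod'', h5, h3, hKlen]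
    calc z.prod * (((plus m A J).map (DD t a)).prod *
          (((minus m K).map fun k => (DD t a k)⁻¹).prod * t ^ (m * EE m)))
        = z.prod * (((plus m A J).map (DD t a)).prod *
          ((minus m K).map fun k => (DD t a k)⁻¹).prod) * t ^ (m * EE m) := by
          simp only [mul_assoc]
      _ = t ^ (m * EE m) := by rw [hzprod, one_mul]

end Pool.Agent.Helper87.SSP
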