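import Mathlib

/-!
# A nilpotency criterion of P. Hall
-/

namespace Pool.Agent.Helper87.SSP

open Subgroup

variable {G : Type*} [Group G]

/-- Iterated commutators of `K` with `H`. -/
def itc (H K : Subgroup G) : ℕ → Subgroup G
  | 0 => K
  | n + 1 => ⁅itc H K n, H⁆

lemma itc_self (H : Subgroup G) (n : ℕ) : itc H H n = H.lowerCentralSeries n := by
  induction n with
  | zero => rfl
  | succ n ih => rw [itc, ih]; rfl

instance itc_normal (H K : Subgroup G) [H.Normal] [hK : K.Normal] (n : ℕ) : (itc H K n).Normal := by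
  induction n with
  | zero => exact hK
  | succ n ih => rw [itc]; infer_instance

lemma itc_mono (H : Subgroup G) {K K' : Subgroup G} (h : K ≤ K') (n : ℕ) :
    itc H K n ≤ itc H K' n := by
  induction n with
  | zero => exact h
  | succ n ih => exact commutator_mono ih le_rfl

lemma itc_le (H K : Subgroup G) [H.Normal] [K.Normal] (n : ℕ) : itc H K n ≤ K := by
  induction n with
  | zero => exact le_rfl
  | succ n ih => exact (commutator_le_left _ _).trans ih

lemma itc_succ' (H K : Subgroup G) (n : ℕ) : itc H K (n + 1) = itc H ⁅K, H⁆ n := by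
  induction n with
  | zero => rfl
  | succ n ih => rw [itc, ih]; rfl

lemma itc_add (H K : Subgroup G) (m n : ℕ) : itc H K (m + n) = itc H (itc H K m) n := by
  induction n with
  | zero => rfl
  | succ n ih => rw [← add_assoc, itc, ih]; rfl

lemma itc_antitone (H K : Subgroup G) [H.Normal] [K.Normal] {m n : ℕ} (h : m ≤ n) :
    itc H K n ≤ itc H K m := by
  obtain ⟨k, rfl⟩ := Nat.exists_eq_add_of_le h
  rw [itc_add]
  exact itc_le _ _ _

lemma leib (X Y H : Subgroup G) [X.Normal] [Y.Normal] [H.Normal] :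
    ⁅⁅X, Y⁆, H⁆ ≤ ⁅⁅X, H⁆, Y⁆ ⊔ ⁅X, ⁅Y, H⁆⁆ := by
  set Q := ⁅⁅X, H⁆, Y⁆ ⊔ ⁅X, ⁅Y, H⁆⁆ with hQ
  have hQn : Q.Normal := by rw [hQ]; infer_instance
  have key : ∀ K : Subgroup G, map (QuotientGroup.mk' Q) K = ⊥ ↔ K ≤ Q := by
    intro K
    rw [Subgroup.map_eq_bot_iff, QuotientGroup.ker_mk']
  rw [← key, map_commutator, map_commutator]
  apply commutator_commutator_eq_bot_of_rotate
  · rw [← map_commutator, ← map_commutator, key, commutator_comm]
    exact le_sup_right
  · rw [← map_commutator, ← map_commutator, key, commutator_comm H X]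
    exact le_sup_left

lemma sup_comm_le (A B H : Subgroup G) [A.Normal] [B.Normal] [H.Normal] :
    ⁅A ⊔ B, H⁆ ≤ ⁅A, H⁆ ⊔ ⁅B, H⁆ := by
  set Q := ⁅A, H⁆ ⊔ ⁅B, H⁆ with hQ
  have hQn : Q.Normal := by rw [hQ]; infer_instance
  have key : ∀ K : Subgroup G, map (QuotientGroup.mk' Q) K = ⊥ ↔ K ≤ Q := by
    intro K
    rw [Subgroup.map_eq_bot_iff, QuotientGroup.ker_mk']
  rw [← key, map_commutator, Subgroup.map_sup, commutator_eq_bot_iff_le_centralizer, sup_le_iff,
    ← commutator_eq_bot_iff_le_centralizer, ← commutator_eq_bot_iff_le_centralizer,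
    ← map_commutator, ← map_commutator, key, key]
  exact ⟨le_sup_left, le_sup_right⟩

lemma itc_sup_le (A B H : Subgroup G) [A.Normal] [B.Normal] [H.Normal] (n : ℕ) :
    itc H (A ⊔ B) n ≤ itc H A n ⊔ itc H B n := by
  induction n with
  | zero => exact le_rfl
  | succ n ih => exact (commutator_mono ih le_rfl).trans (sup_comm_le _ _ _)

lemma itc_comm_le (H Z : Subgroup G) [H.Normal] [Z.Normal] : ∀ (n p q : ℕ), p + q = n →
    ∀ (X Y : Subgroup G) [X.Normal] [Y.Normal],
    ⁅itc H X p, Y⁆ ≤ Z → ⁅X, itc H Y q⁆ ≤ Z → itc H ⁅X, Y⁆ (p + q) ≤ Z := by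
  intro n
  induction n with
  | zero =>
    intro p q hpq X Y _ _ h1 _
    obtain ⟨rfl, rfl⟩ : p = 0 ∧ q = 0 := by omega
    exact h1
  | succ n ih =>
    intro p q hpq X Y _ _ h1 h2
    rcases p with _ | p
    · rw [itc] at h1
      exact (itc_mono _ h1 _).trans (itc_le _ _ _)
    rcases q with _ | q
    · rw [itc] at h2
      exact (itc_mono _ h2 _).trans (itc_le _ _ _)
    have e : p + 1 + (q + 1) = (p + (q + 1)) + 1 := by ring
    rw [e, itc_succ']
    refine (itc_mono _ (leib X Y H) _).trans ((itc_sup_le _ _ _ _).trans (sup_le ?_ ?_))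
    · refine ih p (q + 1) (by omega) ⁅X, H⁆ Y ?_ ?_
      · rw [itc_succ'] at h1; exact h1
      · exact (commutator_mono (commutator_le_left _ _) le_rfl).trans h2
    · have e2 : p + (q + 1) = (p + 1) + q := by ring
      rw [e2]
      refine ih (p + 1) q (by omega) X ⁅Y, H⁆ ?_ ?_
      · exact (commutator_mono le_rfl (commutator_le_left _ _)).trans h1
      · rw [itc_succ'] at h2; exact h2

lemma lcs_normal (N : Subgroup G) [N.Normal] (n : ℕ) : (N.lowerCentralSeries n).Normal := by
  rw [← itc_self]; infer_instance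

lemma lcs_comm_le (N : Subgroup G) [N.Normal] (i : ℕ) :
    ⁅N.lowerCentralSeries i, ⁅N, N⁆⁆ ≤ N.lowerCentralSeries (i + 2) := by
  have := lcs_normal N i
  rw [commutator_comm]
  refine (leib N N _).trans (sup_le ?_ ?_)
  · rw [commutator_comm N]
    exact le_rfl
  · rw [commutator_comm N, commutator_comm N]
    exact le_rfl

/-- **P. Hall.** If `N` is a nilpotent normal subgroup, and iterated commutators of `N` with `H`
eventually lie in `[N, N]`, then they are eventually trivial. -/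
theorem hall (H N : Subgroup G) [H.Normal] [N.Normal] {c r : ℕ}
    (hc : N.lowerCentralSeries c = ⊥) (hr : itc H N r ≤ ⁅N, N⁆) : ∃ m, itc H N m = ⊥ := by
  have h1 : ∀ i, ∃ s, itc H (N.lowerCentralSeries i) s ≤ N.lowerCentralSeries (i + 1) := by
    intro i
    induction i with
    | zero => exact ⟨r, hr⟩
    | succ i ih =>
      obtain ⟨s, hs⟩ := ih
      have := lcs_normal N i
      have := lcs_normal N (i + 1 + 1)
      refine ⟨s + r, ?_⟩
      refine itc_comm_le H _ (s + r) s r rfl (N.lowerCentralSeries i) N ?_ ?_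
      · exact commutator_mono hs le_rfl
      · exact (commutator_mono le_rfl hr).trans (lcs_comm_le N i)
  have h2 : ∀ i, ∃ m, itc H N m ≤ N.lowerCentralSeries i := by
    intro i
    induction i with
    | zero => exact ⟨0, le_rfl⟩
    | succ i ih =>
      obtain ⟨m, hm⟩ := ih
      obtain ⟨s, hs⟩ := h1 i
      refine ⟨m + s, ?_⟩
      rw [itc_add]
      exact (itc_mono _ hm _).trans hs
  obtain ⟨m, hm⟩ := h2 c
  exact ⟨m, by rwa [hc, le_bot_iff] at hm⟩

/-- **P. Hall.** -/
theorem hall_nilpotent (H N : Subgroup G) [H.Normal] [N.Normal] (hN : Group.IsNilpotent N) {r : ℕ}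
    (hHN : ⁅H, H⁆ ≤ N) (hr : itc H N r ≤ ⁅N, N⁆) : Group.IsNilpotent H := by
  obtain ⟨c, hc⟩ := (isNilpotent_iff_lowerCentralSeries N).1 hN
  obtain ⟨m, hm⟩ := hall H N hc hr
  rw [isNilpotent_iff_lowerCentralSeries]
  refine ⟨m + 1, ?_⟩
  rw [← itc_self, itc_succ', ← le_bot_iff, ← hm]
  exact itc_mono _ hHN _

end Pool.Agent.Helper87.SSP
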