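import Pool.Agent.Helper87.SSP.Words
import Pool.Agent.Helper87.TotSync.Lang

/-!
# Decoding subset sum instances
-/

namespace Pool.Agent.Helper87.SSP

open Pool.Agent.Helper87.TotSync (blocks bstep blocks_flatMap)

variable {g : ℕ}

/-- All letters. -/
def allLetters (g : ℕ) : List (Fin g × Bool) := (List.finRange g).flatMap fun i =>
  [(i, true), (i, false)]

/-- The letters with a given number. -/
def letterOf (g n : ℕ) : Word g := (allLetters g).filter fun p => decide (code p = n)

lemma code_inj {p q : Fin g × Bool} (h : code p = code q) : p = q := by
  obtain ⟨i, b⟩ := p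
  obtain ⟨j, c⟩ := q
  unfold code at h
  simp only at h
  cases b <;> cases c <;> simp only [if_true, Bool.false_eq_true, if_false] at h
  · have : i = j := Fin.ext (by omega)
    rw [this]
  · omega
  · omega
  · have : i = j := Fin.ext (by omega)
    rw [this]

lemma code_pos (p : Fin g × Bool) : 0 < code p := by
  unfold code; split_ifs <;> omega

lemma nodup_allLetters : (allLetters g).Nodup := by
  unfold allLetters
  rw [List.nodup_flatMap]
  refine ⟨fun i _ => by simp, (List.nodup_finRange g).imp fun {i j} hij => ?_⟩
  intro p hp hp'
  simp only [List.mem_cons, List.not_mem_nil, or_false] at hp hp'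
  rcases hp with rfl | rfl <;> rcases hp' with h | h <;> simp_all

lemma mem_allLetters (p : Fin g × Bool) : p ∈ allLetters g := by
  unfold allLetters
  rw [List.mem_flatMap]
  refine ⟨p.1, List.mem_finRange _, ?_⟩
  rcases p with ⟨i, b⟩
  cases b <;> simp

lemma letterOf_code (p : Fin g × Bool) : letterOf g (code p) = [p] := by
  unfold letterOf
  have h1 : (fun q : Fin g × Bool => decide (code q = code p)) = fun q => decide (q = p) := by
    funext q
    refine decide_eq_decide.2 ⟨code_inj, fun h => by rw [h]⟩
  rw [h1]
  have h2 : (allLetters g).filter (fun q => decide (q = p)) =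
      (allLetters g).filter (fun q => q == p) := by
    congr 1
    funext q
    by_cases h : q = p <;> simp [h]
  rw [h2, List.filter_beq, List.count_eq_one_of_mem nodup_allLetters (mem_allLetters p)]
  rfl

/-- One step of decoding. -/
def dec1 (s : List (Word g) × Word g) (n : ℕ) : List (Word g) × Word g :=
  if n = 0 then (s.1 ++ [s.2], []) else (s.1, s.2 ++ letterOf g n)

/-- The words of a string. -/
def decWords (g : ℕ) (x : List Bool) : List (Word g) :=
  ((blocks x).1.foldl dec1 (([], []) : List (Word g) × Word g)).1

/-- The numbers of a word. -/
def wnums (w : Word g) : List ℕ := w.map code ++ [0]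

lemma encodeWord_eq (w : Word g) : encodeWord w = (wnums w).flatMap unary := by
  unfold encodeWord wnums
  rw [List.flatMap_append, List.flatMap_map]
  simp

lemma foldl_wnums (w : Word g) (d : List (Word g)) :
    (wnums w).foldl dec1 (d, []) = (d ++ [w], []) := by
  have h : ∀ (w c : Word g), (w.map code).foldl dec1 (d, c) = (d, c ++ w) := by
    intro w
    induction w with
    | nil => intro c; simp
    | cons p w ih =>
      intro c
      rw [List.map_cons, List.foldl_cons]
      have h1 : dec1 (d, c) (code p) = (d, c ++ [p]) := by
        unfold dec1
        rw [if_neg (code_pos p).ne', letterOf_code]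
      rw [h1, ih]
      simp
  unfold wnums
  rw [List.foldl_append, h]
  simp [dec1]

lemma foldl_flatMap_wnums (l : List (Word g)) : ∀ d : List (Word g),
    (l.flatMap wnums).foldl dec1 (d, []) = (d ++ l, []) := by
  induction l with
  | nil => intro d; simp
  | cons w l ih =>
    intro d
    rw [List.flatMap_cons, List.foldl_append, foldl_wnums, ih]
    simp

/-- The encoding of a list of words. -/
def encodeWords (l : List (Word g)) : List Bool := l.flatMap encodeWord

lemma decWords_encode (l : List (Word g)) : decWords g (encodeWords l) = l := by
  unfold decWords encodeWords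
  have h : l.flatMap encodeWord = (l.flatMap wnums).flatMap Pool.Agent.Helper87.TotSync.unary := by
    rw [List.flatMap_assoc]
    congr 1
    funext w
    exact encodeWord_eq w
  rw [h, blocks_flatMap]
  simp only
  rw [foldl_flatMap_wnums]
  simp

lemma encodeWords_cons (w : Word g) (l : List (Word g)) :
    encodeWords (w :: l) = encodeWord w ++ l.flatMap encodeWord := rfl

/-- The word chosen by a mask. -/
def select (l : List (Word g)) (y : List Bool) : Word g :=
  ((List.range l.length).filter fun i => decide (y[i]? = some true)).flatMap fun i =>
    (l[i]?).getD []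

lemma select_sublist (l : List (Word g)) (y : List Bool) :
    ∃ l' : List (Word g), l'.Sublist l ∧ select l y = l'.flatten := by
  refine ⟨((List.range l.length).filter fun i => decide (y[i]? = some true)).map fun i =>
    (l[i]?).getD [], ?_, ?_⟩
  · have h : (List.range l.length).map (fun i => (l[i]?).getD []) = l := by
      apply List.ext_getElem
      · simp
      · intro i h1 h2
        simp [List.getElem?_eq_getElem h2]
    conv_rhs => rw [← h]
    exact List.filter_sublist.map _
  · unfold select
    rw [List.flatMap_def]

lemma select_cons (w : Word g) (l : List (Word g)) (b : Bool) (y : List Bool) :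
    select (w :: l) (b :: y) = (if b = true then w else []) ++ select l y := by
  unfold select
  rw [List.length_cons, List.range_succ_eq_map, List.filter_cons, List.filter_map]
  have h : (fun i => decide ((b :: y)[i]? = some true)) ∘ Nat.succ =
      fun i => decide (y[i]? = some true) := by
    funext i
    simp
  rw [h]
  cases b
  · simp [List.flatMap_map]
  · simp [List.flatMap_map]

lemma exists_select {l l' : List (Word g)} (h : l'.Sublist l) :
    ∃ y : List Bool, y.length ≤ l.length ∧ select l y = l'.flatten := by
  induction h with
  | slnil => exact ⟨[], le_rfl, rfl⟩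
  | cons w _ ih =>
    obtain ⟨y, h1, h2⟩ := ih
    refine ⟨false :: y, by simpa using h1, ?_⟩
    rw [select_cons, h2]
    simp
  | cons_cons w _ ih =>
    obtain ⟨y, h1, h2⟩ := ih
    refine ⟨true :: y, by simpa using h1, ?_⟩
    rw [select_cons, h2]
    simp

lemma ev_flatten {G : Type*} [Group G] (s : Fin g → G) (l : List (Word g)) :
    ev s l.flatten = (l.map (ev s)).prod := by
  induction l with
  | nil => rfl
  | cons w l ih => rw [List.flatten_cons, ev_append, ih, List.map_cons, List.prod_cons]

end Pool.Agent.Helper87.SSP
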