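import Pool.Agent.Helper87.SSP.Lang
import Pool.Agent.Helper87.NP.Arith
import Pool.Agent.Helper87.TotSync.Member
import Pool.Agent.Helper86.Sync.XC

/-!
# Polynomial-time computability of the reduction
-/

open Function
open Pool.Agent.Helper91.PolyTime Pool.Agent.Helper91.Reduction Pool.Agent.Helper91.Verifier
open Pool.Agent.Helper87.NP

namespace Pool.Agent.Helper87.SSP

variable {α : Type*} [PEnc α] {g : ℕ}

lemma ptf_winv {w : α → Word g} (hw : PTF w) : PTF (fun a => winv (w a)) := by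
  unfold winv
  refine PTF.reverse (PTF.map (f := fun _ (p : Fin g × Bool) => (p.1, !p.2)) hw ?_)
  exact (PTF.ofFinite (fun p : Fin g × Bool => (p.1, !p.2))).comp PTF.id.snd

lemma ptf_wcomm {u v : α → Word g} (hu : PTF u) (hv : PTF v) :
    PTF (fun a => wcomm (u a) (v a)) := by
  unfold wcomm
  exact PTF.append hu (PTF.append hv (PTF.append (ptf_winv hu) (ptf_winv hv)))

lemma ptf_wpow (τ : Word g) {k : α → ℕ} (hk : PTF k) : PTF (fun a => wpow τ (k a)) := by
  unfold wpow
  exact PTF.flatMap (PTF.range hk) (PTF.const τ)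

lemma ptf_wD (τ β : Word g) {k : α → ℕ} (hk : PTF k) : PTF (fun a => wD τ β (k a)) := by
  unfold wD
  exact PTF.append (ptf_wpow τ hk) (PTF.append (PTF.const β) (ptf_winv (ptf_wpow τ hk)))

lemma ptf_wsym {X : α → List (Word g)} (hX : PTF X) : PTF (fun a => wsym (X a)) := by
  unfold wsym
  exact PTF.append hX (PTF.map (f := fun _ x => winv x) hX (ptf_winv PTF.id.snd))

lemma ptf_wcomms {X Y : α → List (Word g)} (hX : PTF X) (hY : PTF Y) :
    PTF (fun a => wcomms (X a) (Y a)) := by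
  unfold wcomms
  refine PTF.flatMap hX ?_
  exact PTF.map (α := α × Word g) (f := fun p y => wcomm p.2 y) (hY.comp PTF.id.fst)
    (ptf_wcomm PTF.id.fst.snd PTF.id.snd)

lemma ptf_wlev {X : α → List (Word g)} (hX : PTF X) (w : ℕ) : PTF (fun a => wlev (X a) w) := by
  induction w with
  | zero => exact ptf_wsym hX
  | succ w ih => exact ptf_wcomms (ptf_wsym hX) ih

lemma ptf_wcom {X : α → List (Word g)} (hX : PTF X) (C : ℕ) : PTF (fun a => wcom (X a) C) := by
  induction C with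
  | zero => exact PTF.const []
  | succ C ih => exact PTF.append ih (ptf_wlev hX (C + 1))

lemma ptf_hb {R : α → ℕ} (hR : PTF R) (C : ℕ) : PTF (fun a => hb C (R a)) := by
  unfold hb
  exact PTF.mul (PTF.mul (PTF.const 4) hR)
    (PTF.pow (PTF.add (PTF.mul (PTF.const 2) hR) (PTF.const 2)) C)

lemma ptf_wcor (C : ℕ) : ∀ {X : α → List (Word g)} {R : α → ℕ}, PTF X → PTF R →
    PTF (fun a => wcor C (X a) (R a)) := by
  induction C with
  | zero => intro X R _ _; exact PTF.const []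
  | succ C ih =>
    intro X R hX hR
    refine PTF.append (PTF.flatMap hX ?_) (ih (ptf_wcom hX C) (ptf_hb hR (C + 1)))
    exact PTF.map (α := α × Word g) (f := fun p _ => p.2) (PTF.range (hR.comp PTF.id.fst))
      PTF.id.fst.snd

lemma ptf_EE {m : α → ℕ} (hm : PTF m) : PTF (fun a => EE (m a)) := PTF.succ hm

lemma ptf_BB {m : α → ℕ} (hm : PTF m) : PTF (fun a => BB (m a)) := by
  unfold BB
  exact PTF.mul (PTF.const 4) (PTF.pow (PTF.succ hm) 2)

lemma ptf_cell {m j i : α → ℕ} (hm : PTF m) (hj : PTF j) (hi : PTF i) :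
    PTF (fun a => m a * EE (m a) + j a * BB (m a) + i a) :=
  PTF.add (PTF.add (PTF.mul hm (ptf_EE hm)) (PTF.mul hj (ptf_BB hm))) hi

lemma ptf_cells {m j : α → ℕ} {A : α → ℕ → ℕ → Bool} (hm : PTF m) (hj : PTF j)
    (hA : PTF (fun p : (α × ℕ) × ℕ => A p.1.1 p.1.2 p.2)) :
    PTF (fun a => cells (m a) (A a) (j a)) := by
  unfold cells
  refine PTF.map (f := fun a i => m a * EE (m a) + j a * BB (m a) + i)
    (PTF.filter (PTF.range hm) (hA.comp (PTF.pair (PTF.pair PTF.id.fst (hj.comp PTF.id.fst))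
      PTF.id.snd))) (ptf_cell (hm.comp PTF.id.fst) (hj.comp PTF.id.fst) PTF.id.snd)

lemma ptf_idx {m i r : α → ℕ} (hm : PTF m) (hi : PTF i) (hr : PTF r) :
    PTF (fun a => idx (m a) (i a, r a)) := by
  unfold idx
  exact PTF.add (PTF.add (PTF.mul hr (ptf_BB hm)) hi) (PTF.mul (PTF.sub hm hi) (ptf_EE hm))

lemma ptf_pairs {n m : α → ℕ} (hn : PTF n) (hm : PTF m) : PTF (fun a => pairs (n a) (m a)) := by
  unfold pairs
  refine PTF.flatMap (PTF.range hm) ?_
  exact PTF.map (α := α × ℕ) (f := fun p r => (p.2, r)) (PTF.range (hn.comp PTF.id.fst))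
    (PTF.pair PTF.id.fst.snd PTF.id.snd)

lemma ptf_allCells {n m : α → ℕ} (hn : PTF n) (hm : PTF m) :
    PTF (fun a => allCells (n a) (m a)) := by
  unfold allCells
  refine PTF.flatMap (PTF.range hn) ?_
  exact PTF.map (α := α × ℕ) (f := fun p i => m p.1 * EE (m p.1) + p.2 * BB (m p.1) + i)
    (PTF.range (hm.comp PTF.id.fst))
    (ptf_cell (hm.comp PTF.id.fst.fst) PTF.id.fst.snd PTF.id.snd)

lemma ptf_wList (C : ℕ) (τ β : Word g) {n m : α → ℕ} {A : α → ℕ → ℕ → Bool} (hn : PTF n)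
    (hm : PTF m) (hA : PTF (fun p : (α × ℕ) × ℕ => A p.1.1 p.1.2 p.2)) :
    PTF (fun a => wList C τ β (n a) (m a) (A a)) := by
  unfold wList
  refine PTF.append (ptf_wcor C (ptf_wcom (PTF.map (f := fun _ k => wD τ β k)
    (ptf_allCells hn hm) (ptf_wD τ β PTF.id.snd)) C) (ptf_hb hm (C + 1))) (PTF.append ?_ ?_)
  · refine PTF.map (f := fun a j => wsetEl τ β (m a) (A a) j) (PTF.range hn) ?_
    unfold wsetEl
    refine PTF.flatMap (ptf_cells (A := fun p : α × ℕ => A p.1) (hm.comp PTF.id.fst) PTF.id.snd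
      ?_) (ptf_wD τ β PTF.id.snd)
    exact hA.comp (PTF.pair (PTF.pair PTF.id.fst.fst.fst PTF.id.fst.snd) PTF.id.snd)
  · refine PTF.map (f := fun a p => weraseEl τ β (m a) p) (ptf_pairs hn hm) ?_
    unfold weraseEl
    have h1 : PTF (fun p : α × (ℕ × ℕ) => idx (m p.1) p.2) :=
      ptf_idx (hm.comp PTF.id.fst) PTF.id.snd.fst PTF.id.snd.snd
    exact PTF.append (ptf_winv (ptf_wD τ β h1)) (ptf_wpow τ (ptf_EE (hm.comp PTF.id.fst)))

lemma ptf_wTarget (τ : Word g) {m : α → ℕ} (hm : PTF m) : PTF (fun a => wTarget τ (m a)) :=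
  ptf_wpow τ (PTF.mul hm (ptf_EE hm))

/-! ### Encodings -/

lemma ptf_unary {m : α → ℕ} (hm : PTF m) : PTF (fun a => unary (m a)) := by
  unfold unary
  exact PTF.append (ptf_replicate hm (PTF.const true)) (PTF.const [false])

lemma ptf_code {p : α → Fin g × Bool} (hp : PTF p) : PTF (fun a => code (p a)) :=
  (PTF.ofFinite (fun p : Fin g × Bool => code p)).comp hp

lemma ptf_encodeWord {w : α → Word g} (hw : PTF w) : PTF (fun a => encodeWord (w a)) := by
  unfold encodeWord
  exact PTF.append (PTF.flatMap hw (ptf_unary (ptf_code PTF.id.snd))) (PTF.const _)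

lemma ptf_encodeWords {l : α → List (Word g)} (hl : PTF l) : PTF (fun a => encodeWords (l a)) := by
  unfold encodeWords
  exact PTF.flatMap hl (ptf_encodeWord PTF.id.snd)

lemma ptf_select {l : α → List (Word g)} {y : α → List Bool} (hl : PTF l) (hy : PTF y) :
    PTF (fun a => select (l a) (y a)) := by
  unfold select
  refine PTF.flatMap (PTF.filter (PTF.range (PTF.length hl)) ?_) ?_
  · exact PTF.eq (PTF.getElem? PTF.id.snd (hy.comp PTF.id.fst)) (PTF.const _)
  · exact ptf_getD (PTF.getElem? PTF.id.snd (hl.comp PTF.id.fst)) (PTF.const [])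

end Pool.Agent.Helper87.SSP
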