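import Pool.Agent.Helper87.SSP.Gadget

/-!
# The gadget in terms of words
-/

namespace Pool.Agent.Helper87.SSP

open scoped commutatorElement

variable {G : Type*} [Group G] {g : ℕ}

/-- The inverse word. -/
def winv (w : Word g) : Word g := (w.map fun p => (p.1, !p.2)).reverse

/-- The commutator of two words. -/
def wcomm (u v : Word g) : Word g := u ++ (v ++ (winv u ++ winv v))

/-- The power of a word. -/
def wpow (w : Word g) (k : ℕ) : Word g := (List.range k).flatMap fun _ => w

/-- The conjugate of a word by the power of a word. -/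
def wD (τ α : Word g) (k : ℕ) : Word g := wpow τ k ++ (α ++ winv (wpow τ k))

variable (s : Fin g → G)

lemma ev_nil : ev s [] = 1 := rfl

lemma ev_append (u v : Word g) : ev s (u ++ v) = ev s u * ev s v := by simp [ev]

lemma ev_cons (p : Fin g × Bool) (v : Word g) :
    ev s (p :: v) = (if p.2 = true then s p.1 else (s p.1)⁻¹) * ev s v := by simp [ev]

lemma ev_winv (u : Word g) : ev s (winv u) = (ev s u)⁻¹ := by
  induction u with
  | nil => simp [winv, ev]
  | cons p u ih =>
    have h : winv (p :: u) = winv u ++ [(p.1, !p.2)] := by simp [winv]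
    rw [h, ev_append, ih, ev_cons, ev_cons, ev_nil, mul_inv_rev, mul_one]
    congr 1
    rcases p with ⟨i, b⟩
    cases b <;> simp

lemma ev_wcomm (u v : Word g) : ev s (wcomm u v) = ⁅ev s u, ev s v⁆ := by
  rw [wcomm, ev_append, ev_append, ev_append, ev_winv, ev_winv, commutatorElement_def]
  group

lemma ev_wpow (u : Word g) (k : ℕ) : ev s (wpow u k) = ev s u ^ k := by
  induction k with
  | zero => simp [wpow, ev]
  | succ k ih =>
    unfold wpow at ih ⊢
    rw [List.range_succ, List.flatMap_append, ev_append, ih, pow_succ]
    simp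

lemma ev_wD (τ α : Word g) (k : ℕ) : ev s (wD τ α k) = DD (ev s τ) (ev s α) k := by
  rw [wD, ev_append, ev_append, ev_winv, ev_wpow, DD, mul_assoc]

/-! ### Correctors -/

/-- All commutators of words of two lists. -/
def wcomms (X Y : List (Word g)) : List (Word g) := X.flatMap fun x => Y.map fun y => wcomm x y

/-- The letters and their inverses. -/
def wsym (X : List (Word g)) : List (Word g) := X ++ X.map winv

/-- Commutators of weight `w + 1`. -/
def wlev (X : List (Word g)) : ℕ → List (Word g)
  | 0 => wsym X
  | w + 1 => wcomms (wsym X) (wlev X w)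

/-- Commutators of the weights `2, …, C + 1`. -/
def wcom (X : List (Word g)) : ℕ → List (Word g)
  | 0 => []
  | C + 1 => wcom X C ++ wlev X (C + 1)

/-- The list of correctors. -/
def wcor : ℕ → List (Word g) → ℕ → List (Word g)
  | 0, _, _ => []
  | C + 1, X, R => (X.flatMap fun x => (List.range R).map fun _ => x) ++
      wcor C (wcom X C) (hb (C + 1) R)

lemma map_wsym (X : List (Word g)) : (wsym X).map (ev s) = sym (X.map (ev s)) := by
  unfold wsym sym
  rw [List.map_append, List.map_map, List.map_map]
  congr 2
  funext x
  exact ev_winv s x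

lemma map_wcomms (X Y : List (Word g)) :
    (wcomms X Y).map (ev s) = comms (X.map (ev s)) (Y.map (ev s)) := by
  unfold wcomms comms
  rw [List.map_flatMap, List.flatMap_map]
  congr 1
  funext x
  rw [List.map_map, List.map_map]
  congr 1
  funext y
  exact ev_wcomm s x y

lemma map_wlev (X : List (Word g)) (w : ℕ) : (wlev X w).map (ev s) = lev (X.map (ev s)) w := by
  induction w with
  | zero => exact map_wsym s X
  | succ w ih => rw [wlev, map_wcomms, ih, map_wsym]; rfl

lemma map_wcom (X : List (Word g)) (C : ℕ) : (wcom X C).map (ev s) = com (X.map (ev s)) C := by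
  induction C with
  | zero => rfl
  | succ C ih => rw [wcom, List.map_append, ih, map_wlev]; rfl

lemma map_wcor (C : ℕ) : ∀ (X : List (Word g)) (R : ℕ),
    (wcor C X R).map (ev s) = cor C (X.map (ev s)) R := by
  induction C with
  | zero => intro X R; rfl
  | succ C ih =>
    intro X R
    rw [wcor, List.map_append, ih, map_wcom, cor]
    congr 1
    rw [List.map_flatMap, List.flatMap_map]
    congr 1
    funext x
    rw [List.map_map]
    simp [Function.comp_def, List.map_const']

/-! ### Homomorphisms -/

section hom

variable {Γ : Type*} [Group Γ] (f : Γ →* G)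

lemma map_comms (X Y : List Γ) : (comms X Y).map f = comms (X.map f) (Y.map f) := by
  unfold comms
  rw [List.map_flatMap, List.flatMap_map]
  congr 1
  funext x
  rw [List.map_map, List.map_map]
  congr 1
  funext y
  exact map_commutatorElement f x y

lemma map_sym (X : List Γ) : (sym X).map f = sym (X.map f) := by
  unfold sym
  rw [List.map_append, List.map_map, List.map_map]
  congr 2
  funext x
  exact map_inv f x

lemma map_lev (X : List Γ) (w : ℕ) : (lev X w).map f = lev (X.map f) w := by
  induction w with
  | zero => exact map_sym f X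
  | succ w ih => rw [lev, map_comms, ih, map_sym]; rfl

lemma map_com (X : List Γ) (C : ℕ) : (com X C).map f = com (X.map f) C := by
  induction C with
  | zero => rfl
  | succ C ih => rw [com, List.map_append, ih, map_lev]; rfl

lemma map_cor (C : ℕ) : ∀ (X : List Γ) (R : ℕ), (cor C X R).map f = cor C (X.map f) R := by
  induction C with
  | zero => intro X R; rfl
  | succ C ih =>
    intro X R
    rw [cor, List.map_append, ih, map_com, cor]
    congr 1
    rw [List.map_flatMap, List.flatMap_map]
    congr 1
    funext x
    simp

lemma map_DD (t a : Γ) (k : ℕ) : f (DD t a k) = DD (f t) (f a) k := by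
  unfold DD
  simp

end hom

/-! ### The gadget -/

/-- The word of a set. -/
def wsetEl (τ α : Word g) (m : ℕ) (A : ℕ → ℕ → Bool) (j : ℕ) : Word g :=
  (cells m A j).flatMap (wD τ α)

/-- The word of an erasing element. -/
def weraseEl (τ α : Word g) (m : ℕ) (p : ℕ × ℕ) : Word g :=
  winv (wD τ α (idx m p)) ++ wpow τ (EE m)

/-- The words of the gadget. -/
def wList (C : ℕ) (τ α : Word g) (n m : ℕ) (A : ℕ → ℕ → Bool) : List (Word g) :=
  wcor C (wcom ((allCells n m).map (wD τ α)) C) (hb (C + 1) m) ++
    ((List.range n).map (wsetEl τ α m A) ++ (pairs n m).map (weraseEl τ α m))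

/-- The target word. -/
def wTarget (τ : Word g) (m : ℕ) : Word g := wpow τ (m * EE m)

lemma map_wList {H : Subgroup G} {t a : H} {τ α : Word g} (hτ : ev s τ = t) (hα : ev s α = a)
    (C n m : ℕ) (A : ℕ → ℕ → Bool) :
    (wList C τ α n m A).map (ev s) = (corr C n m t a ++ gList n m A t a).map H.subtype := by
  have hD : ∀ k, ev s (wD τ α k) = H.subtype (DD t a k) := by
    intro k
    rw [ev_wD, hτ, hα, map_DD]; rfl
  rw [wList, List.map_append]
  conv_rhs => rw [List.map_append]
  congr 1
  · unfold corr
    rw [map_wcor, map_wcom, map_cor, map_com, List.map_map, List.map_map]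
    congr 2
    refine List.map_congr_left fun k _ => ?_
    exact hD k
  · unfold gList
    rw [List.map_append, List.map_append, List.map_map, List.map_map, List.map_map, List.map_map]
    congr 1
    · refine List.map_congr_left fun j _ => ?_
      show ev s (wsetEl τ α m A j) = H.subtype (setEl m A t a j)
      unfold wsetEl setEl
      rw [map_list_prod]
      induction cells m A j with
      | nil => rfl
      | cons k l ih =>
        rw [List.flatMap_cons, ev_append, ih, hD]
        simp
    · refine List.map_congr_left fun p _ => ?_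
      show ev s (weraseEl τ α m p) = H.subtype (eraseEl m t a p)
      unfold weraseEl eraseEl
      rw [ev_append, ev_winv, hD, ev_wpow, hτ]
      simp

/-- The subset sum instances of the gadget are equivalent to exact cover instances. -/
theorem gadget_iff {H : Subgroup G} {t a : H} (ha : a ∈ commutator H) (hd : Diss t a ha)
    {τ α : Word g} (hτ : ev s τ = t) (hα : ev s α = a) {C : ℕ}
    (hC : (commutator H).lowerCentralSeries (C + 1) = ⊥) (n m : ℕ) (A : ℕ → ℕ → Bool) :
    (∃ l : List (Word g), l.Sublist (wList C τ α n m A) ∧
      (l.map (ev s)).prod = ev s (wTarget τ m)) ↔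
    ∃ c : ℕ → Prop, ∀ i < m, ∃ r < n, c r ∧ A r i = true ∧
      ∀ r' < n, c r' → A r' i = true → r' = r := by
  have hT : ev s (wTarget τ m) = H.subtype (t ^ (m * EE m)) := by
    rw [wTarget, ev_wpow, hτ]; simp
  have hmap := map_wList s hτ hα C n m A
  constructor
  · rintro ⟨l, hl, hp⟩
    have h1 : (l.map (ev s)).Sublist ((corr C n m t a ++ gList n m A t a).map H.subtype) := by
      rw [← hmap]; exact hl.map _
    obtain ⟨l', h2, h3⟩ := List.sublist_map_iff.1 h1
    rw [h3, hT, ← map_list_prod] at hp
    exact sound hd n m A _ (corr_mem C n m ha) l' h2 (H.subtype_injective hp)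
  · rintro ⟨c, hc⟩
    obtain ⟨l', h1, h2⟩ := complete ha n m A hC c hc
    have h3 : (l'.map H.subtype).Sublist ((wList C τ α n m A).map (ev s)) := by
      rw [hmap]; exact h1.map _
    obtain ⟨l, h4, h5⟩ := List.sublist_map_iff.1 h3
    refine ⟨l, h4, ?_⟩
    rw [← h5, hT, ← map_list_prod, h2]

end Pool.Agent.Helper87.SSP
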